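import Pool.Agent.helper37.P2.DefsC
import Pool.Agent.helper56.P2.SpecU

set_option autoImplicit false

/-!
# Project P2 (MP_063734_an): the local theorem TUB (bands in the tube of one graph)

* `(ι, c, κ)` is the disc of the base, `gp ι c κ γ (ξ, v)` the point of the tube of the graph `γ` (`DefsC`).
* `EnT` is the Gauss energy of the sheets of level `n` in the tube `|w| < t`, in the isotropic coordinates `(ξ, w)`, `v = κ w`, outside a set `B` of parameters `ξ`.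
* `BP` : the point `ξ` of the graph is in a band of time `n`.
-/

open scoped ContDiff Topology
open MeasureTheory Filter Set Metric MvPolynomial Pool.Agent.helper37.QA

namespace Pool.Agent.P2

/-- `P_n` in isotropic tube coordinates -/
noncomputable def iP {d : ℕ} (f : Endo 2 d) (n : ℕ) (ι : Fin 2) (c : ℂ) (κ : ℝ) (γ : ℂ → ℂ) (p : ℂ × ℂ) : ℂ := gP f n ι c κ γ (p.1, κ * p.2)

/-- `Q_n` in isotropic tube coordinates -/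
noncomputable def iQ {d : ℕ} (f : Endo 2 d) (n : ℕ) (ι : Fin 2) (c : ℂ) (κ : ℝ) (γ : ℂ → ℂ) (p : ℂ × ℂ) : ℂ := gQ f n ι c κ γ (p.1, κ * p.2)

open Classical in
/-- Gauss energy of the level `n` in the tube `|w| < t`, outside `B` -/
noncomputable def EnT {d : ℕ} (f : Endo 2 d) (n : ℕ) (ι : Fin 2) (c : ℂ) (κ : ℝ) (γ : ℂ → ℂ) (t : ℝ) (B : Set ℂ) : ENNReal :=
  ∫⁻ p : ℂ × ℂ, if ‖p.1‖ < 1 / 2 ∧ ‖p.2‖ < t ∧ p.1 ∉ B then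
    ENNReal.ofReal (P2U.Gd (iP f n ι c κ γ) (iQ f n ι c κ γ) p * P2U.om (iP f n ι c κ γ) (iQ f n ι c κ γ) p / (d : ℝ) ^ n) else 0

/-- outside `nB` discs of radius `ρ` the energy is at most `ε` -/
def EB {d : ℕ} (f : Endo 2 d) (n : ℕ) (ι : Fin 2) (c : ℂ) (κ : ℝ) (γ : ℂ → ℂ) (t : ℝ) (nB : ℕ) (ρ ε : ℝ) : Prop :=
  ∃ z : Fin nB → ℂ, EnT f n ι c κ γ t (⋃ i, ball (z i) ρ) ≤ ENNReal.ofReal ε

/-- the point `ξ` of the graph is in a band of time `n`, of height `s`, over every disc `(ι', c', κ')` whose centre is near; the part of the band on the graph is short (in units of `κ`: at most `κ'/64`) -/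
def BP {d : ℕ} (f : Endo 2 d) (n : ℕ) (ι : Fin 2) (c : ℂ) (κ : ℝ) (γ : ℂ → ℂ) (s κ' : ℝ) (ξ : ℂ) : Prop :=
  ∀ (ι' : Fin 2) (c' : ℂ), ‖c'‖ ≤ 2 → (∃ x y a : ℂ, a ≠ 0 ∧ It f n (gp ι c κ γ (ξ, 0)) = a • cht ι' x y ∧ ‖x - c'‖ ≤ κ' / 2) →
    ∃ X V : ℂ × ℂ → ℂ, DifferentiableOn ℂ X (ball 0 1) ∧ DifferentiableOn ℂ V (ball 0 1) ∧ (∃ ζ ∈ ball (0 : ℂ) 1, X (ζ, 0) = ξ) ∧
      (∀ ζ ∈ ball (0 : ℂ) 1, ‖X (ζ, 0) - ξ‖ ≤ κ' / (64 * κ)) ∧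
      ∀ p ∈ ball (0 : ℂ × ℂ) 1, ‖X p‖ < 1 / 2 ∧ ‖V p - V (p.1, 0)‖ ≤ s / 16 ∧
        ∃ a : ℂ, a ≠ 0 ∧ It f n (gp ι c κ γ (X p, s * p.2)) = a • cht ι' (c' + κ' * p.1) (V p)

/-- TARGET: the local theorem. (Masses are absolute: if the graph has small mass there is nothing to prove. All constants depend only on `f`, `U`, `τ`, `κ`, `Λ1`, `εT` and the constants chosen before.) -/
def TUB_stmt : Prop :=
  ∀ (d : ℕ) (f : Endo 2 d) (U : Set (PP 2)), 2 ≤ d → Good0 f U → ∀ τ κ Λ1 εT : ℝ, 0 < τ → 0 < κ → κ ≤ 1 / 10 → 0 < Λ1 → 0 < εT →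
    ∃ ε1 : ℝ, 0 < ε1 ∧ ∀ nB : ℕ, ∃ ρB : ℝ, 0 < ρB ∧ ∀ t0 : ℝ, 0 < t0 → ∃ t ε2 : ℝ, 0 < t ∧ t ≤ t0 ∧ 0 < ε2 ∧
      ∀ (m0 : ℕ) (s0 : ℝ), 0 < s0 → ∃ (m nm : ℕ) (s sB κB ε3 : ℝ), m0 ≤ m ∧ 0 < s ∧ s ≤ s0 ∧ 0 < sB ∧ 0 < κB ∧ κB ≤ κ / 4 ∧ 0 < ε3 ∧
        ∀ (ι : Fin 2) (c : ℂ) (γ : ℂ → ℂ) (n N : ℕ), ‖c‖ ≤ 2 → nm ≤ n → n + nm ≤ N → DifferentiableOn ℂ γ (ball 0 1) →
          (∀ ξ ∈ ball (0 : ℂ) 1, ∀ v ∈ ball (0 : ℂ) τ, gp ι c κ γ (ξ, v) ∈ cone U) → EB f n ι c κ γ t nB ρB ε1 →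
          QR f m (Λ1 * m) s N ι c κ γ ≤ ε2 * m → QA f n s N ι c κ γ ≤ ε3 →
          ∃ Bad : Set ℂ, MeasurableSet Bad ∧ (∀ ξ : ℂ, ‖ξ‖ ≤ 1 / 32 → ξ ∉ Bad → BP f n ι c κ γ sB κB ξ) ∧
            ∫⁻ ξ in Bad ∩ closedBall 0 (1 / 32), ENNReal.ofReal (gt f N ι c κ γ (ξ, 0)) ≤ ENNReal.ofReal εT

/-- TARGET (row ARE): the total area of the sheets near `K` is bounded, so its tail is small: for all graphs near `K` and all large `n` the area of `f^n` on the sheets of level `N` in the tube is small. Proof (helper15, helper56): the functions `∑_(i<n) ((1/2) log nq (It f i Z) - d^i un f N Z)` are admissible of level `N` and bounded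
by `C n`; the argument of `MAN` (`RIE`, `QRE`) gives `∑_i ∫_(cone 𝒱) eh f N ((1/2) log nq ∘ It f i) ≤ C`. -/
def ARE_stmt : Prop :=
  ∀ (d : ℕ) (f : Endo 2 d) (Us : ℕ → Set (PP 2)) (K : Set (PP 2)), 2 ≤ d → Core f Us K → ∃ 𝒱 : Set (PP 2), IsOpen 𝒱 ∧ K ⊆ 𝒱 ∧
    ∀ κ s ε3 : ℝ, 0 < κ → κ ≤ 1 / 10 → 0 < s → 0 < ε3 → ∃ nA : ℕ, ∀ (ι : Fin 2) (c : ℂ) (γ : ℂ → ℂ) (n N : ℕ), ‖c‖ ≤ 2 → nA ≤ n → n + nA ≤ N → DifferentiableOn ℂ γ (ball 0 1) →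
      (∀ ξ ∈ ball (0 : ℂ) 1, ∀ v ∈ ball (0 : ℂ) s, gp ι c κ γ (ξ, v) ∈ cone 𝒱) → QA f n s N ι c κ γ ≤ ε3

end Pool.Agent.P2
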