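import Pool.Agent.helper37.P2.SpecB

set_option autoImplicit false

/-!
# Project P2 (MP_063734_an): common definitions of the blocks V (near-maximal discs), C (nodes) and D (assembly), and two target statements

* `cht ι x y` is the chart point `(1,x,y)` (`ι = 0`) or `(x,1,y)` (`ι = 1`).
* A disc of the base is `(ι, c, κ)`: the points `x = c + κ ξ`, `|ξ| < 1`, of the chart `ι`. Graphs are functions `γ` of `ξ`.
* `gp ι c κ γ (ξ, v)` is the point of the tube of `γ` with coordinates `ξ`, `v` (NOTE: first `ξ`, then `v`).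
* An island of the disc `Z` at time `k`: an inverse branch `g` of the first coordinate of `F^k ∘ Z`, defined on the whole disc.
-/

open scoped ContDiff Topology
open MeasureTheory Filter Set Metric MvPolynomial Pool.Agent.helper37.QA

namespace Pool.Agent.P2

/-- the chart point `(1,x,y)` or `(x,1,y)` -/
def cht (ι : Fin 2) (x y : ℂ) : E3 := if ι = 0 then ![1, x, y] else ![x, 1, y]

/-- the point of the tube with coordinates `(ξ, v)` -/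
def gp (ι : Fin 2) (c : ℂ) (κ : ℝ) (γ : ℂ → ℂ) (p : ℂ × ℂ) : E3 := cht ι (c + κ * p.1) (γ p.1 + p.2)

/-- `γ` is a graph in `U` over the disc `(ι, c, κ)` -/
def Gr (U : Set (PP 2)) (ι : Fin 2) (c : ℂ) (κ : ℝ) (γ : ℂ → ℂ) : Prop :=
  DifferentiableOn ℂ γ (ball 0 1) ∧ ∀ ξ ∈ ball (0 : ℂ) 1, gp ι c κ γ (ξ, 0) ∈ cone U

/-- `g` is an island of `Z` at time `k` over the disc `(ι, c, κ)`, with image graph `γ` -/
def Isl {d : ℕ} (f : Endo 2 d) (Z : ℂ → E3) (k : ℕ) (ι : Fin 2) (c : ℂ) (κ : ℝ) (g γ : ℂ → ℂ) : Prop :=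
  DifferentiableOn ℂ g (ball 0 1) ∧ (∀ ξ ∈ ball (0 : ℂ) 1, g ξ ∈ ball (0 : ℂ) 1) ∧ DifferentiableOn ℂ γ (ball 0 1) ∧
    ∀ ξ ∈ ball (0 : ℂ) 1, ∃ a : ℂ, a ≠ 0 ∧ It f k (Z (g ξ)) = a • gp ι c κ γ (ξ, 0)

/-- `P_N` and `Q_N` in tube coordinates -/
noncomputable def gP {d : ℕ} (f : Endo 2 d) (N : ℕ) (ι : Fin 2) (c : ℂ) (κ : ℝ) (γ : ℂ → ℂ) (p : ℂ × ℂ) : ℂ := It f N (gp ι c κ γ p) 0

@[inherit_doc gP] noncomputable def gQ {d : ℕ} (f : Endo 2 d) (N : ℕ) (ι : Fin 2) (c : ℂ) (κ : ℝ) (γ : ℂ → ℂ) (p : ℂ × ℂ) : ℂ := It f N (gp ι c κ γ p) 1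

/-- density of `uu` on the slices `ℂ × {v}` (first coordinate) -/
noncomputable def ta1 (P Q : ℂ × ℂ → ℂ) (D : ℝ) (p : ℂ × ℂ) : ℝ := (1 / 2) * Complex.normSq (w1 P Q p) * om P Q p / D

/-- the law of level `N` on the translate `γ + v`, density at `ξ` -/
noncomputable def gt {d : ℕ} (f : Endo 2 d) (N : ℕ) (ι : Fin 2) (c : ℂ) (κ : ℝ) (γ : ℂ → ℂ) (p : ℂ × ℂ) : ℝ :=
  ta1 (gP f N ι c κ γ) (gQ f N ι c κ γ) ((d : ℝ) ^ N) p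

/-- mass of level `N` of the graph -/
noncomputable def gms {d : ℕ} (f : Endo 2 d) (N : ℕ) (ι : Fin 2) (c : ℂ) (κ : ℝ) (γ : ℂ → ℂ) : ℝ := ∫ ξ, eta ξ ^ 2 * gt f N ι c κ γ (ξ, 0)

/-- squared Fubini-Study norm of the derivative of `f^m` in the direction `a` of the tube coordinates -/
noncomputable def Af {d : ℕ} (f : Endo 2 d) (m : ℕ) (ι : Fin 2) (c : ℂ) (κ : ℝ) (γ : ℂ → ℂ) (p a : ℂ × ℂ) : ℝ :=
  nq (crs (It f m (gp ι c κ γ p)) (fderiv ℂ (fun q => It f m (gp ι c κ γ q)) p a)) / nq (It f m (gp ι c κ γ p)) ^ 2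

/-- difference of the truncated logarithms of `|Df^m|²` and of `|Df^m ∂_ξ|²` (nonnegative) -/
noncomputable def Lf {d : ℕ} (f : Endo 2 d) (m : ℕ) (Λ : ℝ) (ι : Fin 2) (c : ℂ) (κ : ℝ) (γ : ℂ → ℂ) (p : ℂ × ℂ) : ℝ :=
  Real.log (Af f m ι c κ γ p (1, 0) + Af f m ι c κ γ p (0, 1) + Real.exp (-Λ)) - Real.log (Af f m ι c κ γ p (1, 0) + Real.exp (-Λ))

/-- average of `Lf` over the translates `|v| < s` (law of level `N`) -/
noncomputable def QR {d : ℕ} (f : Endo 2 d) (m : ℕ) (Λ s : ℝ) (N : ℕ) (ι : Fin 2) (c : ℂ) (κ : ℝ) (γ : ℂ → ℂ) : ℝ :=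
  (s ^ 2)⁻¹ * ∫ v in ball (0 : ℂ) s, ∫ ξ, eta ξ ^ 2 * (Lf f m Λ ι c κ γ (ξ, v) * gt f N ι c κ γ (ξ, v))

/-- area of `f^j` on the sheets of level `N` in the tube of radius `s/4` -/
noncomputable def QA {d : ℕ} (f : Endo 2 d) (j : ℕ) (s : ℝ) (N : ℕ) (ι : Fin 2) (c : ℂ) (κ : ℝ) (γ : ℂ → ℂ) : ℝ :=
  ∫ v in ball (0 : ℂ) (s / 4), ∫ ξ, eta ξ ^ 2 * (lev (fun p => (1 / 2) * Real.log (nq (It f j (gp ι c κ γ p)))) (ξ, v)
    (ev (gP f N ι c κ γ) (gQ f N ι c κ γ) (ξ, v)) * om (gP f N ι c κ γ) (gQ f N ι c κ γ) (ξ, v) / (2 * (d : ℝ) ^ N))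

/-- data of an island -/
structure ID where
  ι : Fin 2
  c : ℂ
  g : ℂ → ℂ
  γ : ℂ → ℂ

/-- TARGET of block V (near-maximal discs). `Λ1` is a truncation constant and `Kb` a bound of `|u_N|/mass` on the discs, both depend only on `f`, `Us 0` (and `K`), NOT on `κ`, `ε`, `J`. For every scale `κ` of the islands there are functions `m₀`, `s₀`, `J₀` of `ε` such that for
all `J` and arbitrary `m₁`, `L₀`, `M₀`, `s₁`, `ε₁` there is ONE disc `Z` in `Us J`, of mass `≥ M₀`, with `|u_N| ≤ Kb mass` on the disc, and `L ≥ L₀`, `N ≥ L + M₀`, such that for all `ε ≥ ε₁` with `J₀(ε) ≤ J`, all `s` in `[s₁, s₀(ε)]`, all families of pairwise disjoint islands at the times `1 ≤ i < L` and all `m` between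
`m₀(ε)` and `m₁` the average over `i` of the weighted sum of `QR` is `≤ ε m` (the areas `QA` are treated by the row ARE, see `DefsD`). (`Kb`: take a continuity point `Kb ∈ (K₀, K₀+1)` of the monotone function `a(K) = lim_J a^(J)(K)`; then `a(Kb + τ) ≤ a(Kb) + ε` for small `τ`. The disc is near-maximal for `D_L^(J)(Kb)`; this does not depend on `ε`, `s`, `m`.) -/
def VBL_stmt : Prop :=
  ∀ (d : ℕ) (f : Endo 2 d) (Us : ℕ → Set (PP 2)) (K : Set (PP 2)), 2 ≤ d → Core f Us K → ∃ Λ1 Kb : ℝ, 0 < Λ1 ∧ 0 < Kb ∧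
    ∀ κ : ℝ, 0 < κ → κ ≤ 1 / 10 → ∃ (m0 J0 : ℝ → ℕ) (s0 : ℝ → ℝ), (∀ ε : ℝ, 0 < ε → 1 ≤ m0 ε ∧ 0 < s0 ε) ∧
      ∀ (m1 J L0 M0 : ℕ) (s1 ε1 : ℝ), 0 < s1 → 0 < ε1 → ∃ (L N : ℕ) (Z : ℂ → E3), L0 ≤ L ∧ L + M0 ≤ N ∧ Dsc (Us J) Z ∧
        (M0 : ℝ) ≤ mass f N Z ∧ (∀ z ∈ ball (0 : ℂ) 1, |un f N (Z z)| ≤ Kb * mass f N Z) ∧
        ∀ ε s : ℝ, ε1 ≤ ε → s1 ≤ s → s ≤ s0 ε → J0 ε ≤ J →
        ∀ (n : ℕ → ℕ) (A : (i : ℕ) → Fin (n i) → ID),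
          (∀ i, ∀ a : Fin (n i), ‖(A i a).c‖ ≤ 2 ∧ Isl f Z i (A i a).ι (A i a).c κ (A i a).g (A i a).γ) →
          (∀ i, ∀ a b : Fin (n i), a ≠ b → Disjoint ((A i a).g '' ball 0 1) ((A i b).g '' ball 0 1)) →
          ∀ m : ℕ, m0 ε ≤ m → m ≤ m1 →
            ∑ i ∈ Finset.Ico 1 L, (((d : ℝ) ^ i * mass f N Z)⁻¹ * ∑ a : Fin (n i), eta ((A i a).g 0) ^ 2 *
              QR f m (Λ1 * m) s (N - i) (A i a).ι (A i a).c κ (A i a).γ) ≤ ε * m * L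

/-- the point `z` of the disc is, at time `k`, well inside an island over every disc of radius `κ` whose centre is near, with mass of level `N - k` at least `δ` -/
def GoodPt {d : ℕ} (f : Endo 2 d) (Z : ℂ → E3) (N k : ℕ) (κ δ : ℝ) (z : ℂ) : Prop :=
  ∀ (ι : Fin 2) (c : ℂ), ‖c‖ ≤ 2 → (∃ (x y a : ℂ), a ≠ 0 ∧ It f k (Z z) = a • cht ι x y ∧ ‖x - c‖ ≤ κ / 32) →
    ∃ g γ : ℂ → ℂ, Isl f Z k ι c κ g γ ∧ (∃ ξ : ℂ, ‖ξ‖ ≤ 1 / 32 ∧ g ξ = z) ∧ δ ≤ gms f (N - k) ι c κ γ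

/-- TARGET of block C (nodes): most points are good. `κ`, `δ` depend only on `Kb`, `ε` (and `f`, `Us 0`). Proof from `ISL` (islands, helper15): apply it at time `k` to `P = P_k(Z)`, `Q = Q_k(Z)`, with `E = 2 Kb d^k mass`: `(1/2) log(|P|²+|Q|²) = d^k u_k(Z) = d^k u_N(Z) + O(1)`, and the area
`∫ η² |W|² ω ≥ c d^k mass`; finer level `V = d^k u_N(Z)`. Outside a set of mass `C Kb mass/log(1/κ)` the univalence radius is `≥ 4κ`. Mass `≥ δ`: at most `C_κ Kb d^k mass` islands over the discs with centre in a finite net. -/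
def NOD_stmt : Prop :=
  ∀ (d : ℕ) (f : Endo 2 d) (U : Set (PP 2)), 2 ≤ d → Good0 f U → ∀ Kb ε : ℝ, 0 < Kb → 0 < ε → ∃ κ0 : ℝ, 0 < κ0 ∧ κ0 ≤ 1 / 10 ∧
    ∀ κ : ℝ, 0 < κ → κ ≤ κ0 → ∃ (δ : ℝ) (C : ℕ), 0 < δ ∧
      ∀ (k N : ℕ) (Z : ℂ → E3), C ≤ k → k + C ≤ N → Dsc U Z → (C : ℝ) ≤ mass f N Z →
        (∀ z ∈ ball (0 : ℂ) 1, |un f N (Z z)| ≤ Kb * mass f N Z) →
        ∃ Bd : Set ℂ, MeasurableSet Bd ∧ (∀ z ∈ ball (0 : ℂ) 1, eta z ≠ 0 → z ∉ Bd → GoodPt f Z N k κ δ z) ∧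
          ∫ z in Bd, eta z ^ 2 * tau f N Z z ≤ ε * mass f N Z

end Pool.Agent.P2
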