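import Pool.Agent.helper37.P2.SpecD
import Pool.Agent.helper75.P2.MAN

set_option autoImplicit false

/-!
# Project P2, row MNC: the energy of the `n`-sheets in the charts
-/

open scoped ContDiff Topology
open MeasureTheory Filter Set Metric MvPolynomial Pool.Agent.helper37.QA

namespace Pool.Agent.P2

theorem MNC_nq (ι : Fin 2) (x y : ℂ) : 1 ≤ nq (cht ι x y) := by
  unfold nq cht
  rw [Fin.sum_univ_three]
  split_ifs
  · simp only [Matrix.cons_val_zero, Matrix.cons_val_one, Matrix.cons_val, map_one]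
    nlinarith [Complex.normSq_nonneg x, Complex.normSq_nonneg y]
  · simp only [Matrix.cons_val_zero, Matrix.cons_val_one, Matrix.cons_val, map_one]
    nlinarith [Complex.normSq_nonneg x, Complex.normSq_nonneg y]

theorem MNC_cont (ι : Fin 2) : Continuous (fun p : ℂ × ℂ => cht ι p.1 p.2) := by
  unfold cht
  split_ifs
  · refine continuous_pi fun i => ?_
    fin_cases i
    · exact continuous_const
    · exact continuous_fst
    · exact continuous_snd
  · refine continuous_pi fun i => ?_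
    fin_cases i
    · exact continuous_fst
    · exact continuous_const
    · exact continuous_snd

theorem MNC (hMAN : MAN_stmt) (hMN1 : MN1_stmt) (hMN2 : MN2_stmt) (hPSC : PSC_stmt) (hENC : ENC_stmt) : MNC_stmt := by
  classical
  intro d f Us K hd hcore ε hε
  have hd0 : d ≠ 0 := by omega
  obtain ⟨𝒱₀, C, G, hV, hKV, hC, hcard, hen⟩ := hMAN d f Us K hd hcore ε hε
  obtain ⟨C1, hC1, h1⟩ := hMN1 d f (Us 0) hd hcore.good
  obtain ⟨C2, hC2, h2⟩ := hMN2 d f (Us 0) hcore.good
  obtain ⟨CP, hCP, hP⟩ := hPSC d f (Us 0) hd hcore.good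
  have hVo : IsOpen (𝒱₀ ∩ Us 0) := hV.inter hcore.good.1.1
  refine ⟨𝒱₀ ∩ Us 0, C + 2 * C1 * C2 * C, G, hVo, ?_, inter_subset_right, by positivity, ?_, ?_⟩
  · intro x hx
    refine ⟨hKV hx, ?_⟩
    rw [hcore.inter] at hx
    exact mem_iInter.1 hx 0
  · intro L
    have e1 : Nat.card {n : ℕ // n < L ∧ n ∉ G} = ((Finset.range L).filter fun n => n ∉ G).card := by
      refine Nat.subtype_card _ fun n => ?_
      rw [Finset.mem_filter, Finset.mem_range]
    rw [e1]
    have e2 := hcard L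
    have e3 : 0 ≤ 2 * C1 * C2 * C := by positivity
    linarith
  · intro n hn ι
    have hΛ : ∀ j : ℕ, ∃ Λ : ℝ, (j : ℝ) ≤ Λ ∧
        ∫⁻ Y in closedBall (0 : E3) 1 ∩ cone 𝒱₀, ENNReal.ofReal (eh f n (Psc f n Λ) Y) ≤ ENNReal.ofReal C := fun j => by
      obtain ⟨Λ, e1, e2⟩ := hen n hn j
      exact ⟨Λ, e1, e2⟩
    choose Λ hΛ1 hΛ2 using hΛ
    have hΛ0 : ∀ j, 0 ≤ Λ j := fun j => (Nat.cast_nonneg j).trans (hΛ1 j)
    obtain ⟨S, hS⟩ : ∃ S : Set (ℂ × ℂ), S = {p : ℂ × ℂ | ‖p.1‖ ≤ 3 ∧ cht ι p.1 p.2 ∈ cone (𝒱₀ ∩ Us 0)} := ⟨_, rfl⟩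
    have hSm : MeasurableSet S := by
      rw [hS]
      exact (isClosed_le (continuous_norm.comp continuous_fst) continuous_const).measurableSet.inter
        ((cone_open hVo).preimage (MNC_cont ι)).measurableSet
    have hadm : ∀ j, Adm f (Us 0) n (Psc f n (Λ j)) (CP * (n + 1) + Λ j) := fun j => (hP n (Λ j) (hΛ0 j)).1
    have hmeas : ∀ j, Measurable (fun p : ℂ × ℂ => MAN_h f (Us 0) n (Psc f n (Λ j)) (cht ι p.1 p.2)) := fun j =>
      (MAN_h_meas hcore.good n (hadm j) hd0).comp (MNC_cont ι).measurable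
    have hmono : cone (𝒱₀ ∩ Us 0) ⊆ cone (Us 0) := by
      rintro Y ⟨hY, hY2⟩
      exact ⟨hY, hY2.2⟩
    have hmono2 : cone (𝒱₀ ∩ Us 0) ⊆ cone 𝒱₀ := by
      rintro Y ⟨hY, hY2⟩
      exact ⟨hY, hY2.1⟩
    -- pointwise
    have hpt : ∀ p ∈ S, ENNReal.ofReal (He f n ι p) ≤
        liminf (fun j => ENNReal.ofReal (2 * C1) * MAN_h f (Us 0) n (Psc f n (Λ j)) (cht ι p.1 p.2)) atTop := by
      intro p hp
      rw [hS] at hp
      obtain ⟨hp1, hp2⟩ := hp
      have hpU := hmono hp2
      obtain ⟨Z, hZ⟩ : ∃ Z : E3, Z = cht ι p.1 p.2 := ⟨_, rfl⟩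
      by_cases hcv : cv f n Z = 0
      · rw [hZ] at hcv
        rw [(h1 n 0 ι p le_rfl hp1 hpU).2 hcv, ENNReal.ofReal_zero]
        exact zero_le
      · have hnZ : 1 ≤ nq Z := by
          rw [hZ]
          exact MNC_nq ι _ _
        have hnc : 0 < nq (cv f n Z) := by
          have h0 : 0 ≤ nq (cv f n Z) := Finset.sum_nonneg fun i _ => Complex.normSq_nonneg _
          refine lt_of_le_of_ne h0 fun h => hcv ?_
          have h3 := (Finset.sum_eq_zero_iff_of_nonneg fun i _ => Complex.normSq_nonneg _).1 h.symm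
          funext i
          exact Complex.normSq_eq_zero.1 (h3 i (Finset.mem_univ i))
        obtain ⟨a, ha⟩ : ∃ a : ℝ, a = nq (cv f n Z) * nq Z := ⟨_, rfl⟩
        have ha0 : 0 < a := by
          rw [ha]
          positivity
        obtain ⟨q, hq⟩ : ∃ q : ℝ, q = pq (It f n Z) ^ 2 := ⟨_, rfl⟩
        have hq0 : 0 ≤ q := by
          rw [hq]
          positivity
        have hlim : Tendsto (fun j : ℕ => Real.exp (-(j : ℝ)) * q) atTop (𝓝 0) := by
          have e1 : Tendsto (fun j : ℕ => Real.exp (-(j : ℝ))) atTop (𝓝 0) :=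
            Real.tendsto_exp_neg_atTop_nhds_zero.comp tendsto_natCast_atTop_atTop
          have e2 := e1.mul_const q
          rwa [zero_mul] at e2
        refine le_liminf_of_le (by isBoundedDefault) ?_
        filter_upwards [hlim.eventually_lt_const (show (0 : ℝ) < a / 4 by positivity)] with j hj
        have hb : Real.exp (-2 * Λ j) * q ≤ a / 4 := by
          have e1 : Real.exp (-2 * Λ j) ≤ Real.exp (-(j : ℝ)) := by
            refine Real.exp_le_exp.2 ?_
            have e2 := hΛ1 j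
            have e3 : (0 : ℝ) ≤ j := Nat.cast_nonneg j
            linarith
          exact (mul_le_mul_of_nonneg_right e1 hq0).trans hj.le
        have hed : 0 ≤ ed f n (Psc f n (Λ j)) Z := by
          rw [hZ]
          exact (hENC d f (Us 0) n _ _ hd hcore.good (hadm j) _ hpU).2.1
        have hmain := (h1 n (Λ j) ι p (hΛ0 j) hp1 hpU).1
        rw [← hZ, ← ha, ← hq] at hmain
        have hb0 : 0 ≤ Real.exp (-2 * Λ j) * q := by positivity
        have h3 : He f n ι p ≤ 2 * C1 * ed f n (Psc f n (Λ j)) Z := by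
          have e1 : (a + Real.exp (-2 * Λ j) * q) ^ 2 ≤ 2 * a ^ 2 := by nlinarith
          have e2 : C1 * ed f n (Psc f n (Λ j)) Z * (a + Real.exp (-2 * Λ j) * q) ^ 2 ≤
              C1 * ed f n (Psc f n (Λ j)) Z * (2 * a ^ 2) := mul_le_mul_of_nonneg_left e1 (by positivity)
          have e3 : 0 < a ^ 2 := by positivity
          have e4 : He f n ι p * a ^ 2 ≤ (2 * C1 * ed f n (Psc f n (Λ j)) Z) * a ^ 2 := by linarith
          exact le_of_mul_le_mul_right e4 e3
        have h4 : ed f n (Psc f n (Λ j)) Z ≤ eh f n (Psc f n (Λ j)) Z := by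
          unfold eh
          have e1 : (1 : ℝ) ≤ nq Z ^ 3 := one_le_pow₀ hnZ
          nlinarith
        unfold MAN_h
        rw [indicator_of_mem hpU, ← ENNReal.ofReal_mul (by positivity), ← hZ]
        refine ENNReal.ofReal_le_ofReal (h3.trans ?_)
        exact mul_le_mul_of_nonneg_left h4 (by positivity)
    have hint : ∀ j, ∫⁻ p in S, ENNReal.ofReal (2 * C1) * MAN_h f (Us 0) n (Psc f n (Λ j)) (cht ι p.1 p.2) ≤
        ENNReal.ofReal (2 * C1 * C2 * C) := by
      intro j
      rw [lintegral_const_mul _ (hmeas j)]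
      have e1 := h2 (𝒱₀ ∩ Us 0) (MAN_h f (Us 0) n (Psc f n (Λ j))) ι hVo inter_subset_right
        ((MAN_h_meas hcore.good n (hadm j) hd0).indicator (cone_open hVo).measurableSet)
        (fun Y c hc => MAN_h_smul hcore.good n (hadm j) Y c hc)
      rw [← hS] at e1
      have e2 : ∫⁻ Y in closedBall (0 : E3) 1 ∩ cone (𝒱₀ ∩ Us 0), MAN_h f (Us 0) n (Psc f n (Λ j)) Y ≤ ENNReal.ofReal C := by
        refine le_trans ?_ (hΛ2 j)
        refine (lintegral_mono fun Y => MAN_h_le f (Us 0) n _ Y).trans (lintegral_mono_set ?_)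
        exact inter_subset_inter_right _ hmono2
      have e3 : ENNReal.ofReal (2 * C1) * (ENNReal.ofReal C2 * ENNReal.ofReal C) = ENNReal.ofReal (2 * C1 * C2 * C) := by
        rw [← ENNReal.ofReal_mul hC2.le, ← ENNReal.ofReal_mul (by positivity)]
        congr 1
        ring
      rw [← e3]
      exact mul_le_mul_right (e1.trans (mul_le_mul_right e2 _)) _
    rw [← hS]
    calc ∫⁻ p in S, ENNReal.ofReal (He f n ι p)
        ≤ ∫⁻ p in S, liminf (fun j => ENNReal.ofReal (2 * C1) * MAN_h f (Us 0) n (Psc f n (Λ j)) (cht ι p.1 p.2)) atTop :=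
          setLIntegral_mono' hSm hpt
      _ ≤ liminf (fun j => ∫⁻ p in S, ENNReal.ofReal (2 * C1) * MAN_h f (Us 0) n (Psc f n (Λ j)) (cht ι p.1 p.2)) atTop :=
          lintegral_liminf_le' fun j => ((hmeas j).const_mul _).aemeasurable
      _ ≤ ENNReal.ofReal (2 * C1 * C2 * C) := by
          refine liminf_le_of_le (by isBoundedDefault) fun b hb => ?_
          obtain ⟨j, hj⟩ := hb.exists
          exact hj.trans (hint j)
      _ ≤ ENNReal.ofReal (C + 2 * C1 * C2 * C) := ENNReal.ofReal_le_ofReal (by linarith)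

end Pool.Agent.P2
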