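import Pool.Agent.helper37.QA.Quasi

set_option autoImplicit false

/-!
# Project P2 (MP_063734_an): quasi-attractors of endomorphisms of `ℙ²` contain periodic points. Part A: calculus, INT

Rows `p2:X`: prove `X_stmt` in `Pool/Agent/<seat>/P2/X.lean`, `import Pool.Agent.helper37.P2.SpecA`, namespace `Pool.Agent.P2`,
auxiliary lemmas prefixed `X_`. The theorem has the rows listed after the word from as hypotheses, in this order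
(`theorem XX (hYY : YY_stmt) ... : XX_stmt`). Pages: team-store `MP_063734_P2_PAGE_A_helper37.md`.

Notation in the proofs: `e = w1 ∂₂ - w2 ∂₁` is the holomorphic vector field `ev P Q`, tangent to the curves `P/Q = const`; for a real
function `g` of two complex variables `lev g p a` is the Levi form `∑ g_(j kbar) a_j conj(a_k)`, and `lev g p (ev P Q p) = e ebar g`.
-/

open scoped ContDiff Topology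
open MeasureTheory Filter Set Metric MvPolynomial Pool.Agent.helper37.QA

namespace Pool.Agent.P2

/-- `ℂ³` -/
abbrev E3 : Type := Fin 3 → ℂ

/-- squared Hermitian norm -/
noncomputable def nq {n : ℕ} (v : Fin n → ℂ) : ℝ := ∑ i, Complex.normSq (v i)

/-- cross product of two vectors of `ℂ³` (it represents `v ∧ w`) -/
def crs (v w : E3) : E3 := ![v 1 * w 2 - v 2 * w 1, v 2 * w 0 - v 0 * w 2, v 0 * w 1 - v 1 * w 0]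

/-- `g_(z zbar)`, a quarter of the Laplacian -/
noncomputable def lap (g : ℂ → ℝ) (z : ℂ) : ℝ :=
  (1 / 4) * (iteratedFDeriv ℝ 2 g z ![1, 1] + iteratedFDeriv ℝ 2 g z ![Complex.I, Complex.I])

/-- Levi form of `g` at `p` in the direction `a` -/
noncomputable def lev {V : Type} [AddCommGroup V] [Module ℂ V] (g : V → ℝ) (p a : V) : ℝ :=
  lap (fun t : ℂ => g (p + t • a)) 0

/-- real part of `g_(1 2bar)` -/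
noncomputable def lre (g : ℂ × ℂ → ℝ) (p : ℂ × ℂ) : ℝ :=
  (1 / 2) * (lev g p (1, 1) - lev g p (1, 0) - lev g p (0, 1))

/-- imaginary part of `g_(1 2bar)` -/
noncomputable def lim (g : ℂ × ℂ → ℝ) (p : ℂ × ℂ) : ℝ :=
  (1 / 2) * (lev g p (1, Complex.I) - lev g p (1, 0) - lev g p (0, 1))

/-- mixed Monge-Ampere density `A₁₁B₂₂ + A₂₂B₁₁ - 2 Re(A₁₂ conj B₁₂)` -/
noncomputable def MA (A B : ℂ × ℂ → ℝ) (p : ℂ × ℂ) : ℝ :=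
  lev A p (1, 0) * lev B p (0, 1) + lev A p (0, 1) * lev B p (1, 0) -
    2 * (lre A p * lre B p + lim A p * lim B p)

/-- `Q P_1 - P Q_1` -/
noncomputable def w1 (P Q : ℂ × ℂ → ℂ) (p : ℂ × ℂ) : ℂ :=
  Q p * fderiv ℂ P p (1, 0) - P p * fderiv ℂ Q p (1, 0)

/-- `Q P_2 - P Q_2` -/
noncomputable def w2 (P Q : ℂ × ℂ → ℂ) (p : ℂ × ℂ) : ℂ :=
  Q p * fderiv ℂ P p (0, 1) - P p * fderiv ℂ Q p (0, 1)

/-- the vector field `e = w1 ∂₂ - w2 ∂₁` -/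
noncomputable def ev (P Q : ℂ × ℂ → ℂ) (p : ℂ × ℂ) : ℂ × ℂ := (-(w2 P Q p), w1 P Q p)

/-- the weight `(|P|²+|Q|²)⁻²` -/
noncomputable def om (P Q : ℂ × ℂ → ℂ) (p : ℂ × ℂ) : ℝ :=
  ((Complex.normSq (P p) + Complex.normSq (Q p)) ^ 2)⁻¹

/-- the potential `(1/2) log(|P|²+|Q|²) / D` -/
noncomputable def uu (P Q : ℂ × ℂ → ℂ) (D : ℝ) (p : ℂ × ℂ) : ℝ :=
  (1 / 2) * Real.log (Complex.normSq (P p) + Complex.normSq (Q p)) / D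

/-- density of `uu` on the slices `{s} × ℂ` -/
noncomputable def ta (P Q : ℂ × ℂ → ℂ) (D : ℝ) (p : ℂ × ℂ) : ℝ :=
  (1 / 2) * Complex.normSq (w2 P Q p) * om P Q p / D

/-- the bump `1` for `|s| ≤ 1/2`, `0` for `|s|² ≥ 1/2` -/
noncomputable def bmp (s : ℂ) : ℝ := Real.smoothTransition (2 - 4 * Complex.normSq s)

/-- radial probability density of radius `r`: smooth, supported in `|s|² ≤ r²/2` -/
noncomputable def phr (r : ℝ) (s : ℂ) : ℝ := (r ^ 2)⁻¹ * (∫ t, bmp t)⁻¹ * bmp ((r : ℂ)⁻¹ * s)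

/-! ### Calculus -/

/-- Row STO. Proof: on the compact set `tsupport κ` everything is smooth; multiply `B` and `G` by a cut-off which is `1` near
`tsupport κ`: so `B`, `G` may be assumed smooth with compact support on `ℂ × ℂ`. With the Wirtinger derivatives
`∂_j, ∂bar_j` one has `MA(B,G) = ∂₁∂bar₁B ∂₂∂bar₂G + ∂₂∂bar₂B ∂₁∂bar₁G - ∂₁∂bar₂B ∂₂∂bar₁G - ∂₂∂bar₁B ∂₁∂bar₂G`. Integrate each
term twice by parts, moving the two derivatives from `B`: the terms in which a derivative falls on `G` cancel because mixed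
derivatives commute: e.g. `∑ ± ∂bar_j(κ ∂_..∂bar_..G)`, as `∂bar₁(∂₂∂bar₂G) = ∂bar₂(∂₂∂bar₁G)` etc. So both sides are equal.
(Integration by parts: `integral_mul_fderiv_eq_neg_fderiv_mul_of_integrable` and its relatives for line derivatives.) -/
def STO_stmt : Prop :=
  ∀ (Ω : Set (ℂ × ℂ)) (κ B G : ℂ × ℂ → ℝ), IsOpen Ω → ContDiff ℝ ∞ κ → HasCompactSupport κ → tsupport κ ⊆ Ω →
    ContDiffOn ℝ ∞ B Ω → ContDiffOn ℝ ∞ G Ω → ∫ p, κ p * MA B G p = ∫ p, B p * MA κ G p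

/-- Row MAU. Proof: `U = (1/2) log(|P|²+|Q|²)`: `U_(j kbar) = (1/2) w_j conj(w_k) (|P|²+|Q|²)⁻²` (for `w1`, `w2`): indeed
`∂∂bar log‖v‖² = |v ∧ v'|²/‖v‖⁴` in each direction `a`, with `v = (P,Q)` and `v ∧ dv(a) = ±(a₁w1 + a₂w2)`, so
`lev U p a = (1/2) |a₁w1 + a₂w2|² om` (second part of the row), and `lre`, `lim` are obtained by polarisation; then expand
`lev A p (-w2, w1) = A₁₁|w2|² + A₂₂|w1|² - 2 Re(A₁₂ w2 conj w1)` (`lev A p` is a Hermitian form in `a`). -/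
def MAU_stmt : Prop :=
  ∀ (Ω : Set (ℂ × ℂ)) (P Q : ℂ × ℂ → ℂ) (A : ℂ × ℂ → ℝ) (D : ℝ), IsOpen Ω → DifferentiableOn ℂ P Ω → DifferentiableOn ℂ Q Ω →
    (∀ p ∈ Ω, P p ≠ 0 ∨ Q p ≠ 0) → ContDiffOn ℝ ∞ A Ω → 0 < D → ∀ p ∈ Ω,
      MA A (uu P Q D) p = (1 / 2) * om P Q p * lev A p (ev P Q p) / D ∧
      (∀ a : ℂ × ℂ, lev (uu P Q D) p a = (1 / 2) * Complex.normSq (a.1 * w1 P Q p + a.2 * w2 P Q p) * om P Q p / D) ∧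
      lev (uu P Q D) p (ev P Q p) = 0

/-- Row IBP (from STO MAU). Proof: `STO` with `B = A`, `G = uu P Q 1`, and `MAU` for `A` and for `κ`; outside `Ω` (where `κ = 0` near
by) both integrands vanish. -/
def IBP_stmt : Prop :=
  ∀ (Ω : Set (ℂ × ℂ)) (P Q : ℂ × ℂ → ℂ) (κ A : ℂ × ℂ → ℝ), IsOpen Ω → DifferentiableOn ℂ P Ω → DifferentiableOn ℂ Q Ω →
    (∀ p ∈ Ω, P p ≠ 0 ∨ Q p ≠ 0) → ContDiff ℝ ∞ κ → HasCompactSupport κ → tsupport κ ⊆ Ω → ContDiffOn ℝ ∞ A Ω →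
    ∫ p, A p * lev κ p (ev P Q p) * om P Q p = ∫ p, κ p * lev A p (ev P Q p) * om P Q p

/-- Row CHN (chain rule). Proof: `(g ∘ Φ)(p + t a)` and `g(Φ p + t Φ'(p) a)` have the same `lap` at `t = 0`: with
`h(t) = Φ(p + t a)` holomorphic, `D²(g∘h)(0)(v,v) = D²g(h'(0)v, h'(0)v) + Dg(h''(0) v²)`, and for `v = 1`, `v = i` the last terms
cancel. -/
def CHN_stmt : Prop :=
  (∀ (Ω : Set (ℂ × ℂ)) (Φ : ℂ × ℂ → E3) (g : E3 → ℝ) (p a : ℂ × ℂ), IsOpen Ω → DifferentiableOn ℂ Φ Ω → p ∈ Ω →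
    ContDiffAt ℝ 2 g (Φ p) → lev (fun q => g (Φ q)) p a = lev g (Φ p) (fderiv ℂ Φ p a)) ∧
  (∀ (Ω : Set ℂ) (Φ : ℂ → E3) (g : E3 → ℝ) (p : ℂ), IsOpen Ω → DifferentiableOn ℂ Φ Ω → p ∈ Ω →
    ContDiffAt ℝ 2 g (Φ p) → lap (fun q => g (Φ q)) p = lev g (Φ p) (deriv Φ p)) ∧
  (∀ (g : ℂ × ℂ → ℝ) (p : ℂ × ℂ), lev g p (1, 0) = lap (fun s => g (s, p.2)) p.1 ∧
    lev g p (0, 1) = lap (fun z => g (p.1, z)) p.2)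

/-- Row LSE. Proof: at `0`, with `v = G(0)`, `v' = G'(0)`, `E = e^(2B)` and `N = ‖G‖² + E`:
`2 · lap((1/2) log N) = (N N_(t tbar) - |N_t|²)/N²`, `N_(t tbar) = ‖v'‖² + E(4|B_t|² + 2B_(t tbar))`, `N_t = ⟨v', v⟩ + 2 E B_t`; by
Cauchy-Schwarz `|N_t|² ≤ (‖v‖² + E)(‖v'‖² + 4 E |B_t|²)`. So `2 lap ≥ 2 E B_(t tbar)/N ≥ 0`. -/
def LSE_stmt : Prop :=
  ∀ (n : ℕ) (G : ℂ → Fin n → ℂ) (B : ℂ → ℝ) (Ω : Set ℂ), IsOpen Ω → (0 : ℂ) ∈ Ω → DifferentiableOn ℂ G Ω → ContDiffOn ℝ 2 B Ω →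
    0 ≤ lap B 0 → 0 ≤ lap (fun t => (1 / 2) * Real.log (nq (G t) + Real.exp (2 * B t))) 0

/-- Row KER: the kernel with `K_(s sbar) = φ_r - φ_ε`. Proof: `E_ρ(s) = (2/π) ∫ log|s - s'| φ_ρ(s') ds'` is smooth with
`lap E_ρ = φ_ρ` (Newtonian potential of a smooth compactly supported density), and since `φ_ρ` is radial
`E_ρ(s) = (2/π) ∫ max(log|s|, log|s'|) φ_ρ(s') ds'`; put `K = E_r - E_ε`. It vanishes for `|s|² ≥ r²/2`, it is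
`≥ 0` and `≤ (2/π) log⁺(r/|s|)`; `|dK| ≤ 2·(2/π)/|s|` because the radial derivative of `E_ρ` is `(2/π) φ_ρ-mass(|s'| < |s|)/|s|`. For
`ε ≤ |s| ≤ r/4` it is `≥ (2/π) log(3/2) φ_r-mass{3r/8 ≤ |s'| ≤ r/2} ≥ (2/π)(0.4)(7π/64)/(π/2) > 1/50`. (One may also define `K` radially by
integrating the ordinary differential equation.) -/
def KER_stmt : Prop :=
  ∀ r ε : ℝ, 0 < r → 0 < ε → ε ≤ r / 8 → ∃ K : ℂ → ℝ, ContDiff ℝ ∞ K ∧ (∀ s, r ≤ ‖s‖ → K s = 0) ∧ (∀ s, 0 ≤ K s) ∧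
    (∀ s, lap K s = phr r s - phr ε s) ∧ (∀ s, s ≠ 0 → ‖fderiv ℝ K s‖ ≤ 4 / ‖s‖) ∧
    (∀ s, s ≠ 0 → K s ≤ max (Real.log (r / ‖s‖)) 0) ∧ (∀ s, ε ≤ ‖s‖ → ‖s‖ ≤ r / 4 → 1 / 50 ≤ K s)

/-- Row LHM. Proof: for `ρ ≤ r` take a smooth cut-off `χ_ρ` (`1` on `|s| < ρ`, `0` for `|s| > 2ρ`, second derivatives `≤ C/ρ²`):
`∫_(|s|<ρ) lap v ≤ ∫ χ_ρ lap v = ∫ lap χ_ρ (v - v(0)) ≤ C ρ^α` (integration by parts in one complex variable). Sum over the annuli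
`2^(-k-1) r ≤ |s| < 2^(-k) r`: `∑ (2^(-k-1) r)^(-β) C (2^(-k) r)^α`. -/
def LHM_stmt : Prop :=
  ∀ C0 α β : ℝ, 0 < C0 → 0 ≤ β → β < α → α ≤ 1 → ∃ C : ℝ, 0 < C ∧ ∀ (r : ℝ) (v : ℂ → ℝ), 0 < r → ContDiffOn ℝ ∞ v (ball 0 (4 * r)) →
    (∀ s ∈ ball (0 : ℂ) (4 * r), 0 ≤ lap v s) →
    (∀ s ∈ ball (0 : ℂ) (4 * r), ∀ s' ∈ ball (0 : ℂ) (4 * r), |v s - v s'| ≤ C0 * ‖s - s'‖ ^ α) →
    ∫⁻ s in ball (0 : ℂ) r, ENNReal.ofReal (‖s‖ ^ (-β) * lap v s) ≤ ENNReal.ofReal (C * r ^ (α - β))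

/-- Row CORE (from IBP KER LHM): sub-mean value inequality with Riesz mass for `J(s) = w ∫ η² Ψ(s,z) ta(s,z) dz`. Proof: apply `IBP` to
`κ(s,z) = K(s) η(z)²` with `K` of `KER` for `ε → 0`, and `A = Ψ`. Since `lev κ (ev) = |w2|² K_(s sbar) η² + |w1|² K (η²)_(z zbar) -
2 Re(w2 conj(w1) K_s (η²)_(zbar))` up to conjugations (modulus of the last term `≤ 4 |w1||w2| |∂K| |η||∂η|`), one gets, after
multiplication with `w/(2D)`: `∫ (φ_r - φ_ε)(s) J(s) ds = (w/2D) ∫∫ K η² lev Ψ (ev) om + err`, where the first term is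
`≥ (1/50) ∫_(ε<|s|<r/4)`. With `u_(s sbar) = (1/2)|w1|² om/D` and `u_(z zbar) = ta`:
`|err| ≤ B w ∫∫ K |(η²)_(z zbar)| u_(s sbar) + C B w ∫∫ |∂K| |η| |∂η| (u_(s sbar) ta)^(1/2)`. The first is `≤ C B w r^α`, by `LHM` for
`v = u(·,z)` (`K ≤ log⁺(r/|s|) ≤ C (r/|s|)^(α/2)`); the second is, with `|∂K| ≤ 4/|s|` and Cauchy-Schwarz, at most
`C B (w ∫∫_(|s|<r) |s|^(-2+α/2) η² ta)^(1/2) (w ∫∫_(|s|<r) |s|^(-α/2) |∂η|² u_(s sbar))^(1/2) ≤ C B (r^(α/2))^(1/2) (w r^(α/2))^(1/2)` (the mass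
hypothesis and `LHM`). Finally `∫ φ_ε J → J(0)` by continuity. -/
def CORE_stmt : Prop :=
  ∀ C0 α : ℝ, 0 < C0 → 0 < α → α ≤ 1 → ∀ η : ℂ → ℝ, ContDiff ℝ ∞ η → tsupport η ⊆ ball 0 1 →
    ∃ C1 : ℝ, 0 < C1 ∧ ∀ (r D w B : ℝ) (P Q : ℂ × ℂ → ℂ) (Ψ : ℂ × ℂ → ℝ), 0 < r → r ≤ 1 → 0 < D → 0 < w → 0 ≤ B →
      DifferentiableOn ℂ P (ball 0 (4 * r) ×ˢ ball 0 1) → DifferentiableOn ℂ Q (ball 0 (4 * r) ×ˢ ball 0 1) →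
      (∀ p ∈ ball (0 : ℂ) (4 * r) ×ˢ ball (0 : ℂ) 1, P p ≠ 0 ∨ Q p ≠ 0) →
      (∀ s ∈ ball (0 : ℂ) (4 * r), ∀ s' ∈ ball (0 : ℂ) (4 * r), ∀ z ∈ ball (0 : ℂ) 1,
        |uu P Q D (s, z) - uu P Q D (s', z)| ≤ C0 * ‖s - s'‖ ^ α) →
      (∀ s ∈ ball (0 : ℂ) r, w * ∫ z, η z ^ 2 * ta P Q D (s, z) ≤ 2) →
      ContDiffOn ℝ ∞ Ψ (ball 0 (4 * r) ×ˢ ball 0 1) → (∀ p ∈ ball (0 : ℂ) (4 * r) ×ˢ ball (0 : ℂ) 1, |Ψ p| ≤ B) →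
      (∀ p ∈ ball (0 : ℂ) (4 * r) ×ˢ ball (0 : ℂ) 1, 0 ≤ lev Ψ p (ev P Q p)) →
      w * (∫ z, η z ^ 2 * (Ψ (0, z) * ta P Q D (0, z))) +
          (1 / 50) * (∫ s in ball (0 : ℂ) (r / 4), w * ∫ z, η z ^ 2 * (lev Ψ (s, z) (ev P Q (s, z)) * om P Q (s, z)) / (2 * D)) ≤
        (∫ s, phr r s * (w * ∫ z, η z ^ 2 * (Ψ (s, z) * ta P Q D (s, z)))) + C1 * B * (w * r ^ α + (w * r ^ α) ^ (1 / 2 : ℝ))

/-! ### Two separated discs -/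

/-- `L(z,z') = (1/2) log nq(Φ(z) × Ψ(z'))` -/
noncomputable def LL (Φ Ψ : ℂ → E3) (p : ℂ × ℂ) : ℝ := (1 / 2) * Real.log (nq (crs (Φ p.1) (Ψ p.2)))

/-- Row INTM. Proof. `n = Φ × Ψ`; `n × n_z = -δ Ψ`, `n × n_(z') = δ' Φ`, `δ = det(Φ,Ψ,Φ')`, `δ' = det(Φ,Ψ,Ψ')` (vector identity
`(a×b)×(c×d) = [a,b,d]c - [a,b,c]d`). In each direction `∂∂bar log ‖n‖² = ‖n ∧ dn‖²/‖n‖⁴`, so for the direction `(α,β)` the Levi form of `L` is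
`‖-αδΨ + βδ'Φ‖²/(2‖n‖⁴)`: a nonnegative Hermitian form with entries `L₁₁ = |δ|²|Ψ|²/(2|n|⁴)`, `L₂₂ = |δ'|²|Φ|²/(2|n|⁴)`,
`|L₁₂|² = |δδ'|²|⟨Ψ,Φ⟩|²/(4|n|⁸)`; with `|Φ|²|Ψ|² - |⟨Ψ,Φ⟩|² = |n|²` one gets `MA(L,L) = 2(L₁₁L₂₂ - |L₁₂|²) = |δδ'|²/(2|n|⁶)`. -/
def INTM_stmt : Prop :=
  ∀ (Φ Ψ : ℂ → E3), DifferentiableOn ℂ Φ (ball 0 1) → DifferentiableOn ℂ Ψ (ball 0 1) →
    ∀ z ∈ ball (0 : ℂ) 1, ∀ z' ∈ ball (0 : ℂ) 1, crs (Φ z) (Ψ z') ≠ 0 →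
      MA (LL Φ Ψ) (LL Φ Ψ) (z, z') = Complex.normSq (crs (Φ z) (Ψ z') ⬝ᵥ deriv Φ z) * Complex.normSq (crs (Φ z) (Ψ z') ⬝ᵥ deriv Ψ z') /
        (2 * nq (crs (Φ z) (Ψ z')) ^ 3) ∧
      lap (fun z => (1 / 2) * Real.log (nq (Φ z))) z = nq (crs (Φ z) (deriv Φ z)) / (2 * nq (Φ z) ^ 2) ∧
      0 ≤ lev (LL Φ Ψ) (z, z') (1, 0) ∧ 0 ≤ lev (LL Φ Ψ) (z, z') (0, 1) ∧
      lre (LL Φ Ψ) (z, z') ^ 2 + lim (LL Φ Ψ) (z, z') ^ 2 ≤ lev (LL Φ Ψ) (z, z') (1, 0) * lev (LL Φ Ψ) (z, z') (0, 1)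

/-- Row INTA (from INTM). Notation: `a = (1/2) log nq Φ`, `b = (1/2) log nq Ψ`. Proof. Fix `z`. If `Φ × Φ' = 0` at `z` then `δ = det(Φ,Ψ,Φ') = 0` and `lap a z = 0`. Otherwise take
an orthonormal frame `e₀ = Φ/|Φ|`, `e₁` in the plane of `Φ, Φ'`, `e₂`, and `Ψ = ∑ ψ_i e_i`: `|δ| = |Φ||α||ψ₂|`, `|α|² = |Φ×Φ'|²/|Φ|²`,
`|δ'| = |Φ||ψ₁ψ₂' - ψ₂ψ₁'|`, `|n|² = |Φ|² D₀`, `D₀ = |ψ₁|²+|ψ₂|²`, `lap a z = |Φ×Φ'|²/(2|Φ|⁴)`. Hence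
`MA(L,L) = lap a z · |ψ₂|²|ψ₁ψ₂'-ψ₂ψ₁'|²/D₀³ = lap a z · lap k z'` with `k = (1/2) log D₀ + (1/2)|ψ₁|²/D₀` (direct computation; where
`ψ₂ ≠ 0`, with `r = ψ₁/ψ₂`: `(1/2) log(1+|r|²)` has `(1/2)|r'|²/(1+|r|²)²`, and `(1/2)|r|²/(1+|r|²)` has `(1/2)|r'|²(1-|r|²)/(1+|r|²)³`; sum
`|r'|²/(1+|r|²)³`; by density everywhere). As `b + log s ≤ k ≤ b + 1/2`: `∫ χ MA(L,L) dz' = lap a z ∫ lap χ k`, and
`∫ lap χ k` differs from `∫ lap χ b` by at most `∫ |lap χ| (log(1/s) + 1/2)`. -/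
def INTA_stmt : Prop :=
  ∀ χ : ℂ → ℝ, ContDiff ℝ ∞ χ → tsupport χ ⊆ ball 0 1 → ∃ C : ℝ, 0 < C ∧ ∀ (Φ Ψ : ℂ → E3) (s : ℝ), 0 < s → s ≤ 1 →
    DifferentiableOn ℂ Φ (ball 0 1) → DifferentiableOn ℂ Ψ (ball 0 1) →
    (∀ z ∈ ball (0 : ℂ) 1, Φ z ≠ 0) → (∀ z ∈ ball (0 : ℂ) 1, Ψ z ≠ 0) →
    (∀ z ∈ ball (0 : ℂ) 1, ∀ z' ∈ ball (0 : ℂ) 1, s ^ 2 * (nq (Φ z) * nq (Ψ z')) ≤ nq (crs (Φ z) (Ψ z'))) →
    ∀ z ∈ ball (0 : ℂ) 1,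
      |(∫ z', χ z' * MA (LL Φ Ψ) (LL Φ Ψ) (z, z')) -
          lap (fun z => (1 / 2) * Real.log (nq (Φ z))) z * ∫ z', lap χ z' * ((1 / 2) * Real.log (nq (Ψ z')))| ≤
        C * (1 + Real.log (1 / s)) * lap (fun z => (1 / 2) * Real.log (nq (Φ z))) z

/-- Row INTB (from STO INTM). Same notation, `0 ≤ χ`. Proof: `A = a(z) + b(z')`, `B = L - A ∈ [log s, 0]` (Lagrange identity
`nq(Φ×Ψ) ≤ nq Φ nq Ψ`); `MA(A,A) = 2 a_(z zbar) b_(z'z'bar)` and `MA(L,L) - MA(A,A) = MA(B, L+A)`. With `κ = χ(z)χ(z')`, `G = L + A`: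
`∫ κ MA(B,G) = ∫ B MA(κ,G)` (STO), at most `log(1/s) ∫∫ [|χ_(z zbar)|χ' G_(z'z'bar) + χ|χ'_(z'z'bar)| G_(z zbar) + 2|χ_z||χ'_(z')||L_(z z'bar)|]`; `L` is
plurisubharmonic, so `|L_(z z'bar)| ≤ (1/2)(L_(z zbar) + L_(z'z'bar))`, `G_(z zbar), G_(z'z'bar) ≥ 0`. Each term is bounded by
`C ∫∫ χ₁(z)χ₁(z')(G_(z zbar) + G_(z'z'bar))` with a cut-off `χ₁` which is `1` near `tsupport χ`, and `∫ χ₁ G_(z zbar) dz = ∫ lap χ₁ G ≤ C(D + log(1/s))`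
as `|G| ≤ 4D + log(1/s)`. -/
def INTB_stmt : Prop :=
  ∀ χ : ℂ → ℝ, ContDiff ℝ ∞ χ → tsupport χ ⊆ ball 0 1 → (∀ z, 0 ≤ χ z) → ∃ C : ℝ, 0 < C ∧ ∀ (Φ Ψ : ℂ → E3) (s D : ℝ),
    0 < s → s ≤ 1 → 1 ≤ D → DifferentiableOn ℂ Φ (ball 0 1) → DifferentiableOn ℂ Ψ (ball 0 1) →
    (∀ z ∈ ball (0 : ℂ) 1, Φ z ≠ 0) → (∀ z ∈ ball (0 : ℂ) 1, Ψ z ≠ 0) →
    (∀ z ∈ ball (0 : ℂ) 1, |(1 / 2) * Real.log (nq (Φ z))| ≤ D) → (∀ z ∈ ball (0 : ℂ) 1, |(1 / 2) * Real.log (nq (Ψ z))| ≤ D) →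
    (∀ z ∈ ball (0 : ℂ) 1, ∀ z' ∈ ball (0 : ℂ) 1, s ^ 2 * (nq (Φ z) * nq (Ψ z')) ≤ nq (crs (Φ z) (Ψ z'))) →
    |(∫ p : ℂ × ℂ, χ p.1 * χ p.2 * MA (LL Φ Ψ) (LL Φ Ψ) p) -
        2 * (∫ z, lap χ z * ((1 / 2) * Real.log (nq (Φ z)))) * ∫ z', lap χ z' * ((1 / 2) * Real.log (nq (Ψ z')))| ≤
      C * (1 + Real.log (1 / s)) * (D + Real.log (1 / s))

/-! ### Dynamics -/

/-- the lift of the `n`-th iterate -/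
noncomputable def It {d : ℕ} (f : Endo 2 d) (n : ℕ) : E3 → E3 := pmap (iter f.F n)

/-- `|Z₀|² + |Z₁|²` -/
noncomputable def pq (Z : E3) : ℝ := Complex.normSq (Z 0) + Complex.normSq (Z 1)

/-- the potential `u_n(Z) = d⁻ⁿ (1/2) log(|P_n|² + |Q_n|²)` -/
noncomputable def un {d : ℕ} (f : Endo 2 d) (n : ℕ) (Z : E3) : ℝ := (1 / 2) * Real.log (pq (It f n Z)) / (d : ℝ) ^ n

/-- the point `[0:0:1]` is not in the closure of `U`, and `U` is a trapping region -/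
def Good0 {d : ℕ} (f : Endo 2 d) (U : Set (PP 2)) : Prop :=
  IsTrapping f U ∧ ∀ Z : E3, ∀ h : Z ≠ 0, Z 0 = 0 → Z 1 = 0 → toPP ⟨Z, h⟩ ∉ closure U

/-- `Z` is a (lifted) holomorphic disc in `U` -/
def Dsc (U : Set (PP 2)) (Z : ℂ → E3) : Prop := DifferentiableOn ℂ Z (ball 0 1) ∧ ∀ z ∈ ball (0 : ℂ) 1, Z z ∈ cone U

/-- the cut-off `η`: `1` for `|z|² ≤ 1/2`, `0` for `|z|² ≥ 5/8` -/
noncomputable def eta (z : ℂ) : ℝ := Real.smoothTransition (5 - 8 * Complex.normSq z)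

/-- density of `u_N` along the disc `Z` -/
noncomputable def tau {d : ℕ} (f : Endo 2 d) (N : ℕ) (Z : ℂ → E3) (z : ℂ) : ℝ :=
  (1 / 2) * Complex.normSq (It f N (Z z) 1 * deriv (fun z => It f N (Z z) 0) z - It f N (Z z) 0 * deriv (fun z => It f N (Z z) 1) z) /
    pq (It f N (Z z)) ^ 2 / (d : ℝ) ^ N

/-- mass of `u_N` on the disc, with the cut-off `η²` -/
noncomputable def mass {d : ℕ} (f : Endo 2 d) (N : ℕ) (Z : ℂ → E3) : ℝ := ∫ z, eta z ^ 2 * tau f N Z z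

/-- `U` contains a disc of positive mass -/
def Charged {d : ℕ} (f : Endo 2 d) (U : Set (PP 2)) : Prop :=
  ∃ Z : ℂ → E3, Dsc U Z ∧ ∃ c : ℝ, 0 < c ∧ ∀ᶠ N in atTop, c ≤ mass f N Z

/-- Row UN1. Proof: on `cone (closure U)` (closed cone, `Z ≠ 0`, compact modulo scaling) `pq Z ≥ c nq Z` since the continuous
homogeneous function `pq Z/nq Z` does not vanish; `F Z` is again in the cone of `U`, and `c nq Z^d ≤ nq (F Z) ≤ C nq Z^d`. So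
`|log pq(FZ) - d log pq(Z)| ≤ C`, and `|u_(n+1) - u_n| ≤ C d^(-n-1)`: sum the geometric series (`d ≥ 2`). -/
def UN1_stmt : Prop :=
  ∀ (d : ℕ) (f : Endo 2 d) (U : Set (PP 2)), 2 ≤ d → Good0 f U → ∃ C : ℝ, 0 < C ∧
    (∀ n N : ℕ, n ≤ N → ∀ Z ∈ cone (closure U), |un f N Z - un f n Z| ≤ C / (d : ℝ) ^ n) ∧
    (∀ n : ℕ, ∀ Z ∈ cone (closure U), |un f n Z - (1 / 2) * Real.log (nq Z)| ≤ C) ∧
    (∀ n : ℕ, ∀ Z ∈ cone (closure U), 0 < pq (It f n Z) ∧ nq (It f n Z) ≤ C * pq (It f n Z)) ∧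
    (∀ n : ℕ, ∀ Z ∈ cone (closure U), |(1 / 2) * Real.log (nq (It f n Z)) - (d : ℝ) ^ n * un f n Z| ≤ C)

/-- Row UNH (from UN1), uniform Hoelder continuity. Proof: normalise `‖Z‖ = 1`, put `δ = ‖Z - Z'‖ ≤ 1/2`. `F` is Lipschitz in the sense
`‖F W - F W'‖/‖F W‖ ≤ L ‖W - W'‖/‖W‖` whenever `‖W - W'‖ ≤ ‖W‖/2` (`W ≠ 0`; homogeneity, `‖F W‖ ≥ c ‖W‖^d`); enlarge `L` so that `L ≥ d`. Let `k` be the largest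
number with `L^k δ ≤ 1/2`; then `‖F^j Z - F^j Z'‖ ≤ L^j δ ‖F^j Z‖` for `j ≤ k + 1`, as long as the previous one is `≤ 1/2`. On the cone of `U` one has `pq ≥ c nq`, so
`|u_0(W) - u_0(W')| ≤ C ‖W - W'‖/‖W‖` for `W, W'` in the cone with `‖W-W'‖ ≤ ‖W‖/2`. If `n ≤ k`: `|u_n(Z) - u_n(Z')| = d⁻ⁿ|u_0(FⁿZ) - u_0(FⁿZ')| ≤ C (L/d)ⁿ δ ≤ C δ^α` with
`α = log d/log L ≤ 1`, because `(L/d)^n = L^(n(1-α)) ≤ (1/δ)^(1-α)`. If `n > k`: `|u_n(Z)-u_n(Z')| = d^(-k)|u_(n-k)(F^k Z) - u_(n-k)(F^k Z')| ≤ d^(-k)(2C + C) ≤ C'' δ^α` by `UN1`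
(`u_n` versus `(1/2) log nq`) and `d^(-k) = (L^(-k))^α ≤ (2 L δ)^α`. -/
def UNH_stmt : Prop :=
  ∀ (d : ℕ) (f : Endo 2 d) (U : Set (PP 2)), 2 ≤ d → Good0 f U → ∃ C α : ℝ, 0 < C ∧ 0 < α ∧ α ≤ 1 ∧
    ∀ n : ℕ, ∀ Z ∈ cone U, ∀ Z' ∈ cone U, ‖Z - Z'‖ ≤ (1 / 2) * ‖Z‖ → |un f n Z - un f n Z'| ≤ C * (‖Z - Z'‖ / ‖Z‖) ^ α

/-- Row MSS. Proof: `tau f N Z = lap (u_N ∘ Z)` on the unit disc (one variable version of `MAU`: `∂∂bar log ‖v‖² = |v∧v'|²/‖v‖⁴`), then integrate by parts twice: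
`mass = ∫ η² lap(u_N∘Z) = ∫ lap(η²) u_N(Z)`. -/
def MSS_stmt : Prop :=
  ∀ (d : ℕ) (f : Endo 2 d) (U : Set (PP 2)), 2 ≤ d → Good0 f U → ∀ (Z : ℂ → E3), Dsc U Z → ∀ N : ℕ,
    (∀ z ∈ ball (0 : ℂ) 1, tau f N Z z = lap (fun z => un f N (Z z)) z) ∧
    (∀ χ : ℂ → ℝ, ContDiff ℝ ∞ χ → tsupport χ ⊆ ball 0 1 → ∫ z, χ z * tau f N Z z = ∫ z, lap χ z * un f N (Z z))

/-- Row INT (from UN1 MSS INTA INTB): charged trapping regions intersect. Proof: let `φ`, `ψ` be charged discs in `U`, `V`, and suppose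
`U ∩ V = ∅`. For `n ≥ 1` put `Φ = Fⁿ φ`, `Ψ = Fⁿ ψ`: they lie over the disjoint compact sets `f(closure U)`, `f(closure V)`, so there is `s > 0` with
`nq(Φ×Ψ) ≥ s² nq Φ nq Ψ` for all `n` (continuity and compactness on the unit sphere; `crs v w = 0` iff proportional). Scale `φ`, `ψ` so that
`|(1/2) log nq φ| ≤ C` on a slightly smaller disc (replace `φ(z)` by `φ(ρ z)`: or use cut-off supported in `|z| < 0.8`, and reparametrise the disc of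
radius `0.9`). With `χ = η²`: `a = (1/2) log nq Φ` satisfies `|a - dⁿ u_n(φ)| ≤ C`, so `α := ∫ lap χ a = dⁿ mass_n(φ) + O(1) ≥ c dⁿ`, the same for `β := ∫ lap χ b`; `|a|,|b| ≤ C dⁿ =: D`.
By `INTA` (times `χ(z)`, integrated in `z`) `|∫∫ χχ'MA(L,L) - αβ| ≤ C_s α`, by `INTB` `|∫∫ χχ'MA(L,L) - 2αβ| ≤ C_s dⁿ`. So `αβ ≤ C dⁿ`, a contradiction for `n → ∞`. -/
def INT_stmt : Prop :=
  ∀ (d : ℕ) (f : Endo 2 d) (U V : Set (PP 2)), 2 ≤ d → Good0 f U → Good0 f V → Charged f U → Charged f V → (U ∩ V).Nonempty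

end Pool.Agent.P2
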