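import Pool.Agent.helper37.P2.SpecA
import Pool.Agent.helper15.QB.Miss

set_option autoImplicit false

/-!
# Project P2 (MP_063734_an), part B: random perturbations of discs, the energy bound (Manye trick)

Rows `p2:X`: prove `X_stmt` in `Pool/Agent/<seat>/P2/X.lean`, `import Pool.Agent.helper37.P2.SpecB`, namespace `Pool.Agent.P2`,
auxiliary lemmas prefixed `X_`; the rows after the word from are hypotheses, in this order (`theorem XX (hYY : YY_stmt) ... : XX_stmt`).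

`F = It f 1` is the lift. `A` is a matrix near `1`, `A Z` is `fun z => mv A (Z z)`. For a disc `Z` in `U` and a function `Ψ` on the cone of `U`,
`Jf f N Ψ Z` is the average of `Ψ` with respect to the law `η² tau / mass` on the disc.
-/

open scoped ContDiff Topology
open MeasureTheory Filter Set Metric MvPolynomial Pool.Agent.helper37.QA

namespace Pool.Agent.P2

/-- 3 x 3 matrices -/
abbrev M3 : Type := Fin 3 → Fin 3 → ℂ

/-- the unit matrix -/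
def one3 : M3 := fun i j => if i = j then 1 else 0

/-- action of matrices -/
def mv (A : M3) (Z : E3) : E3 := fun i => ∑ j, A i j * Z j

/-- the matrix `A + s E_ij` -/
def adE (A : M3) (i j : Fin 3) (s : ℂ) : M3 := fun k l => A k l + if k = i ∧ l = j then s else 0

/-- `A` is `r`-near to the unit matrix -/
def Near (r : ℝ) (A : M3) : Prop := ∀ i j, ‖A i j - one3 i j‖ < r

/-- smooth probability density on the matrices near `1` -/
noncomputable def rho (r : ℝ) (A : M3) : ℝ := ∏ i, ∏ j, phr r (A i j - one3 i j)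

/-- `r`-near matrices map (the cone of) `U'` into (the cone of) `U` -/
def Rad (r : ℝ) (U' U : Set (PP 2)) : Prop := ∀ A, Near r A → ∀ Z ∈ cone U', mv A Z ∈ cone U

/-- the covector `Q_N dP_N - P_N dQ_N` at `Z`, applied to `X` -/
noncomputable def cc {d : ℕ} (f : Endo 2 d) (N : ℕ) (Z X : E3) : ℂ :=
  It f N Z 1 * fderiv ℂ (fun W => It f N W 0) Z X - It f N Z 0 * fderiv ℂ (fun W => It f N W 1) Z X

/-- the components of this covector -/
noncomputable def cv {d : ℕ} (f : Endo 2 d) (N : ℕ) (Z : E3) : E3 := fun i => cc f N Z (Pi.single i 1)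

/-- admissible functions of level `N`: smooth, bounded by `B`, homogeneous of degree `0`, with nonnegative Levi form on the tangent
vectors of the `N`-sheets -/
def Adm {d : ℕ} (f : Endo 2 d) (U : Set (PP 2)) (N : ℕ) (Ψ : E3 → ℝ) (B : ℝ) : Prop :=
  ContDiffOn ℝ ∞ Ψ (cone U) ∧ (∀ Z ∈ cone U, |Ψ Z| ≤ B) ∧ (∀ Z ∈ cone U, ∀ c : ℂ, c ≠ 0 → Ψ (c • Z) = Ψ Z) ∧
    ∀ Z ∈ cone U, ∀ E : E3, cc f N Z E = 0 → 0 ≤ lev Ψ Z E

/-- the average of `Ψ` over the disc `Z` for the law of level `N` -/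
noncomputable def Jf {d : ℕ} (f : Endo 2 d) (N : ℕ) (Ψ : E3 → ℝ) (Z : ℂ → E3) : ℝ :=
  (∫ z, eta z ^ 2 * (Ψ (Z z) * tau f N Z z)) / mass f N Z

/-- energy density of `Ψ` against `dd^c u_N` on the pair of vectors `X, Y` at `Z` -/
noncomputable def en {d : ℕ} (f : Endo 2 d) (N : ℕ) (Ψ : E3 → ℝ) (Z X Y : E3) : ℝ :=
  lev Ψ Z (cc f N Z X • Y - cc f N Z Y • X) / (2 * (d : ℝ) ^ N * pq (It f N Z) ^ 2)

/-- energy density, homogeneous of degree `-6` -/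
noncomputable def ed {d : ℕ} (f : Endo 2 d) (N : ℕ) (Ψ : E3 → ℝ) (Z : E3) : ℝ :=
  (en f N Ψ Z (Pi.single 0 1) (Pi.single 1 1) + en f N Ψ Z (Pi.single 1 1) (Pi.single 2 1) +
    en f N Ψ Z (Pi.single 2 1) (Pi.single 0 1)) / nq Z

/-- energy density, homogeneous of degree `0` -/
noncomputable def eh {d : ℕ} (f : Endo 2 d) (N : ℕ) (Ψ : E3 → ℝ) (Z : E3) : ℝ := nq Z ^ 3 * ed f N Ψ Z

/-- Fubini-Study area density of a disc: `((1/2) log nq Z)_(z zbar)` -/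
noncomputable def ar (Z : ℂ → E3) (z : ℂ) : ℝ := nq (crs (Z z) (deriv Z z)) / (2 * nq (Z z) ^ 2)

open Classical in
/-- area (with cut-off `η²`) of the part of the disc in `S` -/
noncomputable def arm (S : Set (PP 2)) (Z : ℂ → E3) : ENNReal :=
  ∫⁻ z, if Z z ∈ cone S then ENNReal.ofReal (eta z ^ 2 * ar Z z) else 0

/-- occupation functional: integral of `h` over the perturbed discs `A Z`, `A` in the `r`-ball, with respect to area -/
noncomputable def Occ (r : ℝ) (h : E3 → ENNReal) (Z : ℂ → E3) : ENNReal :=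
  ∫⁻ A in {A : M3 | Near r A}, ∫⁻ z, ENNReal.ofReal (eta z ^ 2 * ar (fun z => mv A (Z z)) z) * h (mv A (Z z))

/-- one random step `Z ↦ F (A Z)` -/
noncomputable def stp {d : ℕ} (f : Endo 2 d) (r : ℝ) (G : (ℂ → E3) → ENNReal) (Z : ℂ → E3) : ENNReal :=
  ∫⁻ A, ENNReal.ofReal (rho r A) * G (fun z => It f 1 (mv A (Z z)))

/-- the points reached from `S` by `r`-near matrices -/
def Ar (r : ℝ) (S : Set (PP 2)) : Set (PP 2) :=
  {p | ∃ Z ∈ cone S, ∃ A : M3, Near r A ∧ ∃ h : mv A Z ≠ 0, p = toPP ⟨mv A Z, h⟩}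

/-- one step of the `r`-chains -/
def Tr {d : ℕ} (f : Endo 2 d) (r : ℝ) (S : Set (PP 2)) : Set (PP 2) := f.map '' Ar r S

/-- a minimal quasi-attractor `K`, all of whose trapping neighbourhoods `Us n` are charged -/
structure Core {d : ℕ} (f : Endo 2 d) (Us : ℕ → Set (PP 2)) (K : Set (PP 2)) : Prop where
  good : Good0 f (Us 0)
  trap : ∀ n, IsTrapping f (Us n)
  anti : ∀ n, closure (Us (n + 1)) ⊆ Us n
  inter : K = ⋂ n, Us n
  ne : K.Nonempty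
  minimal : ∀ V, IsTrapping f V → (V ∩ K).Nonempty → K ⊆ V
  charged : ∀ n, Charged f (Us n)

/-- the truncated logarithm of the size of `Q_n dP_n - P_n dQ_n` -/
noncomputable def Psc {d : ℕ} (f : Endo 2 d) (n : ℕ) (Λ : ℝ) (Z : E3) : ℝ :=
  (1 / 2) * Real.log (nq (cv f n Z) * nq Z / pq (It f n Z) ^ 2 + Real.exp (-2 * Λ))

/-! ### Linear algebra, masses -/

/-- Row RAD. Proof: `f(closure U)` is compact and contained in the open set `U`; the set of unit vectors in its cone is compact, so by continuity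
of `(A,Z) ↦ mv A Z` a small `r` works; homogeneity. The estimates for `r ≤ 1/100` are elementary: `A = 1 + E` with `‖E Z‖ ≤ 3r‖Z‖` (sup norm), and
`crs (A Z) (A X) - crs Z X` is bounded by `(6r + 9r²)·(...)`: more precisely `A Z × A X = cof(A) (Z × X)` with the cofactor matrix within `10 r` of `1`. -/
def RAD_stmt : Prop :=
  (∀ (d : ℕ) (f : Endo 2 d) (U : Set (PP 2)), IsTrapping f U →
    ∃ r : ℝ, 0 < r ∧ r ≤ 1 / 100 ∧ Rad r (f.map '' closure U) U) ∧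
  (∀ (A : M3), Near (1 / 100) A → ∀ Z X : E3, (1 / 2) * ‖Z‖ ≤ ‖mv A Z‖ ∧ ‖mv A Z‖ ≤ 2 * ‖Z‖ ∧
    (1 / 4) * nq Z ≤ nq (mv A Z) ∧ nq (mv A Z) ≤ 4 * nq Z ∧
    (1 / 4) * nq (crs Z X) ≤ nq (crs (mv A Z) (mv A X)) ∧ nq (crs (mv A Z) (mv A X)) ≤ 4 * nq (crs Z X)) ∧
  (∀ (r : ℝ), 0 < r → ∀ S : Set (PP 2), IsOpen (Ar r S) ∧ S ⊆ Ar r S) ∧
  (∀ (U : Set (PP 2)) (Z : ℂ → E3) (r : ℝ) (U' : Set (PP 2)) (A : M3), Rad r U' U → Near r A → Dsc U' Z → Dsc U (fun z => mv A (Z z)))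

/-- Row DMS (from UN1 MSS RAD). Proof: `It f N (It f 1 Z) = It f (N+1) Z` (`pmap_iter_add`), so `tau f N (F∘Z) = d · tau f (N+1) Z`. Masses: `MSS` with `χ = η²`, `UN1`, and
`|(1/2) log nq (A Z) - (1/2) log nq Z| ≤ log 2`; `∫ lap(η²) = 0` is not needed. `ar Z = lap((1/2) log nq Z)`: integrate by parts. -/
def DMS_stmt : Prop :=
  ∀ (d : ℕ) (f : Endo 2 d) (U : Set (PP 2)) (r : ℝ), 2 ≤ d → Good0 f U → 0 < r → r ≤ 1 / 100 → Rad r (f.map '' closure U) U → ∃ C : ℝ, 0 < C ∧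
    (∀ (N : ℕ) (Z : ℂ → E3) (A : M3), Dsc (f.map '' closure U) Z → Near r A → |mass f N (fun z => mv A (Z z)) - mass f N Z| ≤ C) ∧
    (∀ (N n : ℕ) (Z : ℂ → E3), Dsc U Z → |mass f N Z - mass f n Z| ≤ C) ∧
    (∀ (N : ℕ) (Z : ℂ → E3), Dsc U Z → |(∫ z, eta z ^ 2 * ar Z z) - mass f N Z| ≤ C) ∧
    (∀ (N : ℕ) (Z : ℂ → E3), Dsc U Z → Dsc (f.map '' U) (fun z => It f 1 (Z z)) ∧
      mass f N (fun z => It f 1 (Z z)) = d * mass f (N + 1) Z ∧
      ∀ Ψ : E3 → ℝ, Jf f N Ψ (fun z => It f 1 (Z z)) = Jf f (N + 1) (fun Y => Ψ (It f 1 Y)) Z)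

/-- Row ENC. Proof: `Ψ` is homogeneous of degree `0`, so `lev Ψ Z (E + t Z) = lev Ψ Z E` (`Ψ(Z + s(E + tZ)) = Ψ(Z + (s/(1+st)) E)`, and the reparametrisation has derivative `1` at `0`;
in one complex variable `lap (g ∘ φ) 0 = |φ'(0)|² lap g 0`), `cc f N Z Z = 0` (Euler). The space `ℂ³/ℂZ` is two-dimensional and `(X,Y) ↦ cc(X) Y - cc(Y) X mod Z` is alternating and bilinear, so it
is `det(Z,X,Y)` times a fixed vector mod `Z`; hence `en f N Ψ Z X Y = |det(Z,X,Y)|² κ(Z)`; for the pairs `(e_i,e_j)` the determinants are the coordinates of `Z`, so `κ = ed f N Ψ Z`.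
Sum over `(i,j)`: `det(AZ, Z_j e_i, A Z') = Z_j (A Z' × A Z)_i` up to sign. -/
def ENC_stmt : Prop :=
  ∀ (d : ℕ) (f : Endo 2 d) (U : Set (PP 2)) (N : ℕ) (Ψ : E3 → ℝ) (B : ℝ), 2 ≤ d → Good0 f U → Adm f U N Ψ B → ∀ Z ∈ cone U,
    (∀ X Y : E3, en f N Ψ Z X Y = Complex.normSq (Z ⬝ᵥ crs X Y) * ed f N Ψ Z) ∧ 0 ≤ ed f N Ψ Z ∧
    (∀ (W V : E3), ∑ i : Fin 3, ∑ j : Fin 3, en f N Ψ Z (Pi.single i (W j)) V = nq W * nq (crs Z V) * ed f N Ψ Z)

/-- Row DCO (from CORE CHN UNH UN1 MSS DMS RAD): the inequality `CORE` for the family `s ↦ (A' + s E_ij) Z`, `|s| < r/2`. Proof: apply `CORE` with radius `r/8`,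
`P(s,z) = It f N ((A'+sE_ij) Z(z)) 0`, `Q` likewise, `D = d^N`, `w = 1/mass f N Z`, `Ψ(s,z) = Ψ((A'+sE_ij)Z(z))`, `η = eta`. The matrices are `r`-near (`r/4 + 4·r/8 < r`), so all points are in
the cone of `U`, where `pq > 0` (`UN1`). Hoelder: `UNH` (the increment is `|s-s'| |Z_j| ≤ |s-s'| ‖Z‖`). Mass: `ta = tau`, and `DMS` with `mass f N Z ≥ C1`. `lev (Ψ∘Φ) (ev) = lev Ψ Φ (w1 Φ_z - w2 Φ_s)`
by `CHN`, with `w1 = cc(Φ_s)`, `w2 = cc(Φ_z)`, `Φ_s = E_ij Z`, `Φ_z = (A'+sE_ij)Z'`; it is `≥ 0` because `cc` vanishes on this vector, and `lev·om/(2D) = en`. Finally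
`w ∫ η² Ψ tau(AZ) = Jf(AZ) mass(AZ)/mass(Z)`, which differs from `Jf(AZ)` by at most `B C/mass`. -/
def DCO_stmt : Prop :=
  ∀ (d : ℕ) (f : Endo 2 d) (U : Set (PP 2)) (r : ℝ), 2 ≤ d → Good0 f U → 0 < r → r ≤ 1 / 100 → Rad r (f.map '' closure U) U → ∃ C1 : ℝ, 1 ≤ C1 ∧
    ∀ (N : ℕ) (Ψ : E3 → ℝ) (B : ℝ) (Z : ℂ → E3) (A : M3) (i j : Fin 3), Adm f U N Ψ B → 1 ≤ B → Dsc (f.map '' closure U) Z →
      C1 ≤ mass f N Z → Near (r / 4) A →
      Jf f N Ψ (fun z => mv A (Z z)) +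
          (1 / 50) * (∫ s in ball (0 : ℂ) (r / 32), (mass f N Z)⁻¹ *
            ∫ z, eta z ^ 2 * en f N Ψ (mv (adE A i j s) (Z z)) (Pi.single i (Z z j)) (mv (adE A i j s) (deriv Z z))) ≤
        (∫ s, phr (r / 8) s * Jf f N Ψ (fun z => mv (adE A i j s) (Z z))) + C1 * B * (mass f N Z) ^ (-(1 / 2) : ℝ)

/-- Row RIE (from DCO ENC RAD). Proof. (1) Apply `DCO` (dropping the energy term, which is `≥ 0`) to the nine entries one after the other: first `A = 1`, then integrate the next entry for the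
matrix in which the previous entries are random (all intermediate matrices are `r/4`-near, as the density `phr (r/8)` is supported in `|s| ≤ r/8`); nine error terms. (2) For fixed `(i,j)` integrate `DCO` against `rho (r/8) A`:
the left side contains `∫ rho Jf(AZ) ≥ Jf(Z) - 9 err` by (1), the right side is `≤ b + err`; so `∫ rho(r/8)(A) ∫_(|s|<r/32) w ∫ η² en ≤ 50 (b - Jf(Z) + 10 err)`. For every `A` which is `r/64`-near
`∫_(|s|<r/32) rho (r/8)(A - sE_ij) ds ≥ c(r) > 0` (the bump is constant `> 0` for entries of modulus `≤ r/16`). Change variables, sum over `(i,j)` and use `ENC`: the sum is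
`nq Z · nq(AZ × AZ') · ed(AZ)`, while `ar(AZ) eh(AZ) = (1/2) nq(AZ × AZ') nq(AZ) ed(AZ)`; `RAD`. -/
def RIE_stmt : Prop :=
  ∀ (d : ℕ) (f : Endo 2 d) (U : Set (PP 2)) (r : ℝ), 2 ≤ d → Good0 f U → 0 < r → r ≤ 1 / 100 → Rad r (f.map '' closure U) U → ∃ C1 : ℝ, 1 ≤ C1 ∧
    ∀ (N : ℕ) (Ψ : E3 → ℝ) (B : ℝ) (Z : ℂ → E3), Adm f U N Ψ B → 1 ≤ B → Dsc (f.map '' closure U) Z → C1 ≤ mass f N Z →
      (Jf f N Ψ Z ≤ (∫ A, rho (r / 8) A * Jf f N Ψ (fun z => mv A (Z z))) + C1 * B * (mass f N Z) ^ (-(1 / 2) : ℝ)) ∧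
      (∀ b : ℝ, (∀ A, Near r A → Jf f N Ψ (fun z => mv A (Z z)) ≤ b) →
        ENNReal.ofReal (mass f N Z)⁻¹ * Occ (r / 64) (fun Y => ENNReal.ofReal (eh f N Ψ Y)) Z ≤
          ENNReal.ofReal (C1 * (b - Jf f N Ψ Z + B * (mass f N Z) ^ (-(1 / 2) : ℝ))))

/-! ### The functional -/

/-- Row PSC (from UN1 MAU CHN LSE). Proof: `cv f (n+1) Z = DF(Z)^T cv f n (F Z)` (as `P_(n+1) = P_n ∘ F`), so `nq(cv f (n+1) Z) ≤ C nq Z^(d-1) nq(cv f n (FZ))`, `nq(FZ) ≥ c nq Z^d`, and `It f (n+1) Z = It f n (FZ)`: this gives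
`Psc f (n+1) Λ Z ≤ Psc f n Λ (FZ) + C` (for the sum with the exponential use `C ≥ 0`), and `Psc f 0 Λ ≤ C`: so `Psc ≤ C(n+1)`; `Psc ≥ -Λ` is clear (`Λ ≥ 0` gives also the bound of the modulus). Degree `0`:
`cv` has degree `2dⁿ - 1`. Levi form: `Psc = (1/2) log(nq(cv) nq Z + e^(-2Λ)(|P|²+|Q|²)²) - log(|P|²+|Q|²)`; the argument of the first logarithm is the squared norm of the holomorphic vector
`(cv_i Z_j, e^(-Λ)P², e^(-Λ)√2 PQ, e^(-Λ)Q²)`, which is not `0`, so its Levi form is `≥ 0`; the Levi form of `log(|P|²+|Q|²)` in the direction `E` is `|cc f n Z E|²/(|P|²+|Q|²)²`, which is `0` if `cc f n Z E = 0`. -/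
def PSC_stmt : Prop :=
  ∀ (d : ℕ) (f : Endo 2 d) (U : Set (PP 2)), 2 ≤ d → Good0 f U → ∃ C : ℝ, 1 ≤ C ∧ ∀ (n : ℕ) (Λ : ℝ), 0 ≤ Λ →
    Adm f U n (Psc f n Λ) (C * (n + 1) + Λ) ∧
    (∀ Z ∈ cone U, Psc f n Λ Z ≤ C * (n + 1) ∧ Psc f (n + 1) Λ Z ≤ Psc f n Λ (It f 1 Z) + C)

/-- Row ENT (from DMS), lower bound by convexity. Proof: as `cc f n Z Z = 0`, `|cc f n Z Z'|² ≤ nq(cv) nq(Z × Z')/nq Z`. Hence, with `τ = tau f n Z`, `a = ar Z`: `nq(cv) nq Z/pq² ≥ dⁿ τ/a` (if `a = 0` then `τ = 0`), so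
`Psc τ ≥ (1/2) τ log(dⁿ τ/a) ≥ (1/2) τ log(τ/a) ≥ (1/2)(τ - a)` (`t log(t/a) ≥ t - a`). Integrate: `Jf ≥ (1/2)(mass - ∫ η² a)/mass ≥ -C/mass`. -/
def ENT_stmt : Prop :=
  ∀ (d : ℕ) (f : Endo 2 d) (U : Set (PP 2)), 2 ≤ d → Good0 f U → ∃ C : ℝ, 1 ≤ C ∧ ∀ (n : ℕ) (Λ : ℝ) (Z : ℂ → E3), 0 ≤ Λ → Dsc U Z →
    C ≤ mass f n Z → -C ≤ Jf f n (Psc f n Λ) Z

/-! ### Minimality, reaching K -/

/-- Row PMIN (from INT): `K` is minimal for all iterates. `itE f p` (of `helper15/QB/Miss`) is `f^p` as an endomorphism of degree `d^p`. Proof. Call `V` nice if it is `f^p`-trapping and meets `K`; intersecting with `Us 0` we may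
assume `V ⊆ Us 0`. (a) If `V` is nice then `K ⊆ ⋃_(a<p) f^a(V)`: choose open sets `V⁰ ⊂⊂ V¹ ⊂⊂ ... ⊂⊂ V^(p-1) = V` with `f^p(closure V) ⊆ V⁰` (`⊂⊂`: closure inside); `O = ⋃_a f^a(V^a)` is `f`-trapping (`f` is open and
`closure (f^a V) = f^a(closure V)`) and meets `K` (`f(K) ⊆ K`), so `K ⊆ O`. (b) If `V` is nice then `V ∩ Us n` is nice and charged for `f^p`: by (a) some `Us m` is contained in `⋃_a f^a(V ∩ Us n)` (compactness of the decreasing closures), it contains a charged disc,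
hence (cut the disc into small pieces; partition of unity; masses converge) a charged disc in one `f^a(V ∩ Us n)`, and its image by `f^(p-a)` is a charged disc in `V ∩ Us n` (mass is multiplied by `d^(p-a)`; `mass (itE f p) N = mass f (pN)`). (c) If `V, V'` are nice, so is
`V ∩ V'`: by (b) and `INT` for `itE f p`, `V ∩ V' ∩ Us n ≠ ∅` for all `n`; for `x_n` in it a limit point of `f^p(x_n)` is in `f^p(closure V) ∩ f^p(closure V') ∩ K`. (d) `W = ⋂_(a<p) f^a(V)` is nice by (c) (each `f^a(V)` is nice), so `K ⊆ ⋃_b f^b(W) ⊆ V`,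
since `f^b(W) ⊆ f^b(f^a(V))` with `a + b ∈ {0,p}`. -/
def PMIN_stmt : Prop :=
  ∀ (d : ℕ) (f : Endo 2 d) (Us : ℕ → Set (PP 2)) (K : Set (PP 2)), 2 ≤ d → Core f Us K → ∀ p : ℕ, 0 < p → ∀ V : Set (PP 2),
    IsTrapping (Pool.Agent.helper15.QB.itE f p) V → (V ∩ K).Nonempty → K ⊆ V

/-- Row MIX (from PMIN INT RAD): from a charged open set `B` the `r`-chains of length exactly `n` reach all of `K`, for all large `n`. Notation `T_r = Tr f r`, `R_r(B) = ⋃_j Ar r (T_r^j B)`. Proof. (a) For open `O ⊆ f(Us 0)`, `R_r(O)` is open, contained in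
`Us 0`, and trapping: if `p ∈ closure R_r(O)` then `f(p)` is a limit of points `y ∈ T_r^(j+1) O`, and `f(p) ∈ Ar r {y}` when `y` is close enough (uniformly, compactness); the same argument shows that `R_r^q(O) = ⋃_j Ar r (T_r^(qj) O)` is `f^q`-trapping. (b) Let `x ∈ K`, `O` a
small neighbourhood of `x` in `f(Us 0)` (`K = f(K)`; small compared to `r`: `Ar (r/2) O ⊆ Ar r {x'}` for `x' ∈ O`). `R_(r/4)(O)` meets `K`, so `K ⊆ R_(r/4)(O)` by minimality (`Core.minimal`), in particular there is `q ≥ 1` with `x ∈ Ar (r/4) (T_(r/4)^q O)` (apply it to `f(O)`-chains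
to get `q ≥ 1`: `K ⊆ R(T_(r/4) O)` in the same way). By `PMIN` `K ⊆ R_(r/4)^q(O)`, so by compactness `K ⊆ ⋃_(j≤j₂) Ar (r/4) (T_(r/4)^(qj) O)`. (c) Loops: `T_(r/4)^j O ⊆ T_r^(j + kq) O` for all `k ≥ 0`: follow the loop `k` times; at the end of a loop one is at `y` with `x ∈ Ar (r/4) {y}`, and the next
step of radius `r/4` from a point of `O` is a step of radius `r` from `y` (composition of two perturbations; `r ≤ 1/100`). So `K ⊆ Ar r (T_r^(qJ) O)` for all `J ≥ j₂`, and applying `f^a` (`f(K) = K`, unperturbed steps) `K ⊆ T_r^n O` for all large `n`. (d) `R_(r/4)(B)` is trapping and charged, so it meets all `Us n` (`INT`),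
hence `K` (limit argument), hence contains `K`: choose `O` in (b) inside `Ar (r/4)(T_(r/4)^j B)`; then `K ⊆ Ar r (T_r^n B)` for all large `n` (again two perturbations at one place). All radii are with respect to `Rad r (f(closure (Us 0))) (Us 0)`. -/
def MIX_stmt : Prop :=
  ∀ (d : ℕ) (f : Endo 2 d) (Us : ℕ → Set (PP 2)) (K : Set (PP 2)) (r : ℝ), 2 ≤ d → Core f Us K → 0 < r → r ≤ 1 / 100 →
    Rad r (f.map '' closure (Us 0)) (Us 0) → ∀ B : Set (PP 2), IsOpen B → B ⊆ f.map '' (Us 0) → Charged f B →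
    ∃ N0 : ℕ, ∀ n ≥ N0, K ⊆ Ar r ((Tr f r)^[n] B)

/-- Row STA (from DMS MSS UN1): a disc of large mass has area in a charged ball. Proof: cover the compact set `f(closure U)` by finitely many small balls `β_i`, with smooth functions `χ_i` supported in `β_i` and `∑ χ_i = 1` on `f(closure U)` (partition of unity; on
the cone use smooth functions homogeneous of degree `0`, e.g. functions of `|⟨Z,q⟩|²/(nq Z nq q)`); `B_i = β_i ∩ f(U)`. For a disc `Z` in `f(U)` with `mass f n Z ≥ C`, `mass f N Z ≥ mass f n Z - C` for `N ≥ n` (`DMS`), so some `i` has `∫ η² χ_i(Z) tau f N Z ≥ mass/(2m)` for infinitely many `N`. Then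
(1) `B_i` is charged: small sub-discs of `Z` with values in `B_i`; their masses converge as `N → ∞` (`MSS`, `UN1`), and one of them is positive. (2) `∫ η² χ_i(Z) tau f N Z = ∫ η² χ_i(Z) ar Z + ∫ lap(η² χ_i(Z)) (u_N(Z) - (1/2) log nq Z)`, the bracket is bounded by `C` (`UN1`) and
`|lap(η²χ_i(Z))| ≤ C η² ar 1_(β_i) + C 1_(|z|<1)` (Cauchy-Schwarz for the mixed term, as `|∂(χ_i∘Z)|² ≤ C ar`), so `mass/(2m) ≤ C arm B_i Z + C`. -/
def STA_stmt : Prop :=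
  ∀ (d : ℕ) (f : Endo 2 d) (U : Set (PP 2)) (δ : ℝ), 2 ≤ d → Good0 f U → 0 < δ → ∃ (m : ℕ) (B : Fin m → Set (PP 2)) (c C : ℝ), 0 < c ∧ 0 < C ∧
    (∀ i, IsOpen (B i) ∧ B i ⊆ f.map '' U ∧ ∀ p ∈ closure (B i), ∀ q ∈ closure (B i), p ∈ Ar δ {q}) ∧
    ∀ (n : ℕ) (Z : ℂ → E3), Dsc (f.map '' U) Z → C ≤ mass f n Z → ∃ i, Charged f (B i) ∧ ENNReal.ofReal (c * mass f n Z) ≤ arm (B i) Z

/-- Row TRS (from RAD), one step. Proof: the critical set of `f` is nowhere dense, so there is `q₁ ∈ Ar (r/2) {p}` with `f(q₁) ∈ 𝒩` and `Df(q₁)` invertible; fix a small ball `β` around `q₁` with `f(β) ⊆ 𝒩` on which `nq(DF X × F Z) ≥ c nq(X × Z)·(scaling)`, i.e. the area density of `F∘Y` is `≥ c` times that of `Y`.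
For unit vectors `Z₀` over points near `p` the random vector `A Z₀` (`A` with density `rho r`) has a density `≥ c` on a neighbourhood of a lift of `q₁` (the map `A ↦ A Z₀` is linear onto and `rho r > 0` is constant for entries `≤ r/2`), so `P([A Z₀] ∈ β) ≥ c`; and
`ar(AZ) ≥ c ar(Z)` pointwise (`RAD`). Tonelli. -/
def TRS_stmt : Prop :=
  ∀ (d : ℕ) (f : Endo 2 d) (U : Set (PP 2)) (r : ℝ), 2 ≤ d → Good0 f U → 0 < r → r ≤ 1 / 100 → Rad r (f.map '' closure U) U →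
    ∀ p ∈ f.map '' closure U, ∀ q ∈ Ar (r / 2) {p}, ∀ 𝒩 : Set (PP 2), IsOpen 𝒩 → f.map q ∈ 𝒩 →
      ∃ (Pn : Set (PP 2)) (c : ℝ), IsOpen Pn ∧ p ∈ Pn ∧ 0 < c ∧ ∀ Z : ℂ → E3, Dsc (f.map '' closure U) Z →
        ENNReal.ofReal c * arm Pn Z ≤ stp f r (arm 𝒩) Z

/-- Row OCC (from RAD). Proof: Tonelli: `Occ r h Z = ∫ η² ∫_(Near r A) ar(AZ)(z) h(AZ(z)) dA dz ≥ (1/64) ∫ η² ar(Z)(z) ∫_(Near r A) h(A Z(z)) dA` (`RAD`); for `Z(z) = Z₀` over a point near `p` (normalise `‖Z₀‖ = 1`, `h` is homogeneous) the image of Lebesgue measure on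
`Near r` under the linear surjection `A ↦ A Z₀` has density `≥ c` on a fixed neighbourhood in `ℂ³` of a lift of `q`; and the integral of a homogeneous function `h` over this neighbourhood dominates `c` times its integral over `closedBall 0 1 ∩ cone 𝒩` for a small
neighbourhood `𝒩` of `q` (polar coordinates: scaling and the phase). -/
def OCC_stmt : Prop :=
  ∀ (d : ℕ) (f : Endo 2 d) (U : Set (PP 2)) (r : ℝ), 2 ≤ d → Good0 f U → 0 < r → r ≤ 1 / 100 →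
    ∀ p ∈ f.map '' closure U, ∀ q ∈ Ar r {p}, ∃ (Pn 𝒩 : Set (PP 2)) (c : ℝ), IsOpen Pn ∧ IsOpen 𝒩 ∧ p ∈ Pn ∧ q ∈ 𝒩 ∧ 0 < c ∧
      ∀ (Z : ℂ → E3) (h : E3 → ENNReal), Dsc (f.map '' closure U) Z → Measurable h → (∀ (Y : E3) (c : ℂ), c ≠ 0 → h (c • Y) = h Y) →
        ENNReal.ofReal c * arm Pn Z * (∫⁻ Y in closedBall (0 : E3) 1 ∩ cone 𝒩, h Y) ≤ Occ r h Z

/-- Row QRE (from MIX STA TRS OCC RAD). Proof: take `r₁ = r/1000` in `MIX`, and `STA` with `δ = r₁` (so that `Ar r₁ (B_i) ⊆ Ar (3 r₁) {p}` for all `p ∈ closure B_i`). For each charged `B_i` (finitely many) and `N0` large, the same for all of them, `K ⊆ Ar r₁ (T_(r₁)^(N0) B_i)`. For `x ∈ K` there are `y ∈ T^(N0) B_i` with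
`x ∈ Ar r₁ {y}` and a chain `p₀ ∈ B_i, q_k ∈ Ar r₁ {p_k}, p_(k+1) = f(q_k)`, `y = p_(N0)`. By `OCC` (radius `r/64`) for `(y,x)` and `TRS` (radius `r/8`) applied `N0` times from the end, and for the first step to all points of the compact set `closure B_i` (finite subcover; `q₀ ∈ Ar (3r₁){p}` for all of them), one gets a
neighbourhood `𝒩_x` of `x` and `c_x` with `c_x arm B_i Z ∫_(cone 𝒩_x) h ≤ (stp^N0 (Occ h))(Z)`. Finitely many `𝒩_x` cover `K`; let `𝒱` be their union, `c` the minimum divided by the number; finally `STA`. (Discs stay in `f(U)`: `F(AZ)`.) Measurability of `A ↦ G(F(AZ))` is not needed, all steps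
are inequalities between lower integrals; use `lintegral_mono` and `lintegral_const_mul'`-type lemmas with finite constants. -/
def QRE_stmt : Prop :=
  ∀ (d : ℕ) (f : Endo 2 d) (Us : ℕ → Set (PP 2)) (K : Set (PP 2)) (r : ℝ), 2 ≤ d → Core f Us K → 0 < r → r ≤ 1 / 100 →
    Rad r (f.map '' closure (Us 0)) (Us 0) → ∃ (N0 : ℕ) (𝒱 : Set (PP 2)) (c C : ℝ), IsOpen 𝒱 ∧ K ⊆ 𝒱 ∧ 0 < c ∧ 0 < C ∧
      ∀ (n : ℕ) (Z : ℂ → E3) (h : E3 → ENNReal), Dsc (f.map '' (Us 0)) Z → C ≤ mass f n Z → Measurable h →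
        (∀ (Y : E3) (c : ℂ), c ≠ 0 → h (c • Y) = h Y) →
        ENNReal.ofReal (c * mass f n Z) * (∫⁻ Y in closedBall (0 : E3) 1 ∩ cone 𝒱, h Y) ≤ (stp f (r / 8))^[N0] (Occ (r / 64) h) Z

open Classical in
/-- Row MAN (from RIE PSC ENT QRE DMS RAD): the energy of the `n`-sheets near `K` is bounded for most `n`. Proof. `U = Us 0`, `r` of `RAD`. For `Λ ≥ 0`, `M ≥ 1` let `A(n,Λ,M) = sup {Jf f n (Psc f n Λ) Z : Z disc in U, mass f n Z ≥ M}` (there are such discs: images `F^k` of a charged disc),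
`A_n = inf_(Λ,M) A(n,Λ,M)`: `-C ≤ A_n ≤ C(n+1)` (`ENT`, `PSC`), `A_(n+1) ≤ A_n + C` (`PSC` and `DMS`: `Jf f (n+1) (Psc f (n+1) Λ) Z ≤ Jf f n (Psc f n Λ) (FZ) + C`, the masses increase), and `A(n,Λ,M)` decreases in `Λ` and `M`. With `C₁ = (N0+1)² (C+1) 4/ε` the set
`G' = {n : A_n ≥ A_(n-j) - C₁ for all j ≤ min(n,N0)}` misses at most `(ε/(N0+1)) L + C` of the `n < L` (a missing `n` gives a window of length `≤ N0` over which `A` drops by `C₁`; disjoint windows; the total increase is `≤ C L`); `G = {n : n + N0 ∈ G'}`.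
Let `n ∈ G`, `m = n + N0`, `Λ ≥ Λ₀` and `M` so large that `A(m-j,Λ,M) ≤ A_(m-j) + 1` for `j ≤ N0`, and the error terms `C₁' B (mass)^(-1/2)` are `≤ 1`, `B = C(m+1)+Λ`. Take `Z₀` in `U` with mass `≥ d^…M` large and `Jf f m (Psc f m Λ) Z₀ ≥ A_m - 1`, `Z = F Z₀`... more precisely choose it for `m + 1` and pass to `Z = F Z₀`, so
that `Z` is a disc in `f(U)` with `Jf f m (Psc f m Λ) Z ≥ A_(m+1) - 1 - C` (require `m + 1 ∈ G'` with `N0 + 1` steps instead). Random steps `Z_j = F(A_j Z_(j-1))`: by `RIE` (1), `PSC`, `DMS` the expectation of `Jf f (m-j) (Psc f (m-j) Λ)(Z_j)` is `≥ A_m - C_j`, and all values, also for `A Z_j`, are `≤ A(m-j,Λ,M) ≤ A_(m-j) + 1 ≤ A_m + C₁ + 1`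
(`Jf(AZ_j) ≤ Jf` of its image for the index `m-j-1`, or directly the supremum, `A Z_j` is a disc in `U`). At `j = N0`: `RIE` (2) with `b = A_m + C₁ + 1` and `QRE` with `h = eh f n (Psc f n Λ)` (homogeneous, measurable) give
`c ∫_(cone 𝒱) h ≤ E[(mass)⁻¹ Occ h (Z_(N0))]·const ≤ C (b - E Jf(Z_(N0)) + 1) ≤ C'`, independent of `n` and `Λ` (masses of `Z_(N0)` and `d^(N0) mass Z` are comparable). -/
def MAN_stmt : Prop :=
  ∀ (d : ℕ) (f : Endo 2 d) (Us : ℕ → Set (PP 2)) (K : Set (PP 2)), 2 ≤ d → Core f Us K → ∀ ε : ℝ, 0 < ε →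
    ∃ (𝒱 : Set (PP 2)) (C : ℝ) (G : Set ℕ), IsOpen 𝒱 ∧ K ⊆ 𝒱 ∧ 0 < C ∧
      (∀ L : ℕ, (((Finset.range L).filter fun n => n ∉ G).card : ℝ) ≤ ε * L + C) ∧
      ∀ n ∈ G, ∀ Λ0 : ℝ, ∃ Λ ≥ Λ0,
        ∫⁻ Y in closedBall (0 : E3) 1 ∩ cone 𝒱, ENNReal.ofReal (eh f n (Psc f n Λ) Y) ≤ ENNReal.ofReal C

end Pool.Agent.P2
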