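import Pool.Agent.helper37.P2.DefsD
import Pool.Agent.helper83.P2.SpecX
import Pool.Agent.helper83.P2.SpecS0

set_option autoImplicit false

/-!
# Project P2 (MP_063734_an), part D: energy packing, bookkeeping of measures, dichotomy, closing, reduction

Rows `p2:X`: prove `X_stmt` in `Pool/Agent/<seat>/P2/X.lean`, `import Pool.Agent.helper37.P2.SpecD`, namespace `Pool.Agent.P2`,
auxiliary lemmas prefixed `X_`; the rows after the word from are hypotheses, in this order (`theorem XX (hYY : YY_stmt) ... : XX_stmt`; exact line in the lock note).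

The sequence of discs `Z J` in `Us J` (`NMD`) comes from block V. A point `z` of the disc is at time `k` on a graph (island, `Isl`, normalised: `NI`). `mz` is the law on the disc.
Case A: some graph is visited (up to `r`) by a proportion `> α` of the points and times, for arbitrarily small `r` and large `J`: then `K` contains a periodic point (`ATO`).
Case B (`Non`): then for most pairs of times `(k, k+n)` most points are in bands (`PRB`), and the closing theorem `XCL` gives periodic points of bounded period in `Us J` (`PRS`), so in `K` (`FIN`).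
-/

open scoped ContDiff Topology
open MeasureTheory Filter Set Metric MvPolynomial Pool.Agent.helper37.QA

namespace Pool.Agent.P2

/-! ### Energy packing -/

/-- `P_n` in the chart -/
noncomputable def hP {d : ℕ} (f : Endo 2 d) (n : ℕ) (ι : Fin 2) (p : ℂ × ℂ) : ℂ := It f n (cht ι p.1 p.2) 0

/-- `Q_n` in the chart -/
noncomputable def hQ {d : ℕ} (f : Endo 2 d) (n : ℕ) (ι : Fin 2) (p : ℂ × ℂ) : ℂ := It f n (cht ι p.1 p.2) 1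

/-- density of (Gauss energy + area) of the sheets of level `n`, in the chart -/
noncomputable def He {d : ℕ} (f : Endo 2 d) (n : ℕ) (ι : Fin 2) (p : ℂ × ℂ) : ℝ :=
  (P2U.Gd (hP f n ι) (hQ f n ι) p + (‖P2U.cx (hP f n ι) (hQ f n ι) p‖ ^ 2 + ‖P2U.cv (hP f n ι) (hQ f n ι) p‖ ^ 2)) *
    P2U.om (hP f n ι) (hQ f n ι) p / (d : ℝ) ^ n

/-- Row CHB (short to medium). (1) Otherwise there are points `cht ι x_j y_j` of the cone of `U`, `‖x_j‖ ≤ 3`, `‖y_j‖ → ∞`; dividing by `y_j` they tend to `(0,0,1)`, so `[0:0:1] ∈ closure U`: excluded by `Good0`. (2) `K = ⋂ closure (Us n)` is a decreasing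
intersection of compact sets (`Core.anti`), so `closure (Us J) ⊆ 𝒱 ∩ Us 0` for some `J ≥ 1`. The set of the `(x,y)`, `‖x‖ ≤ 3`, `‖y‖ ≤ R`, with `cht ι x y` in the cone of `closure (Us J)` is compact, and contained in the open set of the `(x,y)` with `cht ι x y ∈ cone (𝒱 ∩ Us 0)`: take its distance to the
complement (`IsCompact.exists_thickening_subset_open` or a Lebesgue number). -/
def CHB_stmt : Prop :=
  (∀ (d : ℕ) (f : Endo 2 d) (U : Set (PP 2)), Good0 f U → ∃ R : ℝ, 1 ≤ R ∧ ∀ (ι : Fin 2) (x y : ℂ), ‖x‖ ≤ 3 → cht ι x y ∈ cone U → ‖y‖ ≤ R) ∧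
  (∀ (d : ℕ) (f : Endo 2 d) (Us : ℕ → Set (PP 2)) (K : Set (PP 2)), 2 ≤ d → Core f Us K → ∀ 𝒱 : Set (PP 2), IsOpen 𝒱 → K ⊆ 𝒱 → ∃ (J : ℕ) (τ : ℝ), 0 < τ ∧
    ∀ (ι : Fin 2) (x y v : ℂ), ‖x‖ ≤ 3 → cht ι x y ∈ cone (Us J) → ‖v‖ < τ → cht ι x (y + v) ∈ cone (𝒱 ∩ Us 0))

/-- Row MN1 (medium; from CHB ENC PSC CHN). Pointwise inequality. Notation `Z = cht ι x y`, `c = cv f n Z`, `N = nq c * nq Z + e^(-2Λ) pq²`, `c_x = cx`, `c_y = cv` of `SpecU` for `hP, hQ`: for `ι = 0` these are the components `1, 2` of `c`, for `ι = 1` the components `0, 2`; Euler: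
`∑ c_i Z_i = 0`, so the third component is bounded by `C (|c_x|+|c_y|)`, and `nq c ≤ C (|c_x|²+|c_y|²)` (`‖x‖ ≤ 3`, `‖y‖ ≤ R`). With `E = cc(X) • Y - cc(Y) • X`, `X = ∂_x`, `Y = ∂_y` (unit vectors of `ℂ³`; up to sign `E` is the embedded vector `ef = (c_y, -c_x)`), `|det(Z,X,Y)| = 1`, so
`ed f n Ψ Z = lev Ψ Z E/(2 dⁿ pq²)` (`ENC` for the admissible function `Psc`, see `PSC`). `Psc = (1/2) log N - log pq` with `pq = |P|²+|Q|²`; `lev (log pq ∘ It f n) Z E = |cc E|²/pq² = 0` and `N = ‖V‖²` for the holomorphic vector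
`V = (c_i Z_j, e^(-Λ)P², √2 e^(-Λ)PQ, e^(-Λ)Q²)`: `lev ((1/2) log‖V‖²) Z E = ‖V ∧ V'‖²/(2‖V‖⁴)` (`V' = DV(Z)E`; one complex variable `t ↦ V(Z+tE)`), and the part of `V ∧ V'` in the block `(c_i Z_j)` has squared norm `nq(c ∧ c') nq(Z)² + nq(c)² nq(Z ∧ E)` (`c' = Dc(Z)E`; both terms: the squared norm of
`(a⊗b) ∧ (a'⊗b + a⊗b')` is `|a∧a'|²|b|⁴ + |a|⁴|b∧b'|²`). Here `nq(c ∧ c') ≥ |c_x c_y' - c_y c_x'|² = |nn|²`, and `nq (crs Z E) ≥ |c_x|²+|c_y|²`. So `(|nn|²/(|c_x|²+|c_y|²)² + |c_x|²+|c_y|²)(nq c nq Z)² ≤ C lev (Psc) Z E · N²`. -/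
def MN1_stmt : Prop :=
  ∀ (d : ℕ) (f : Endo 2 d) (U : Set (PP 2)), 2 ≤ d → Good0 f U → ∃ C : ℝ, 0 < C ∧ ∀ (n : ℕ) (Λ : ℝ) (ι : Fin 2) (p : ℂ × ℂ), 0 ≤ Λ → ‖p.1‖ ≤ 3 → cht ι p.1 p.2 ∈ cone U →
    He f n ι p * (nq (cv f n (cht ι p.1 p.2)) * nq (cht ι p.1 p.2)) ^ 2 ≤
      C * ed f n (Psc f n Λ) (cht ι p.1 p.2) *
        (nq (cv f n (cht ι p.1 p.2)) * nq (cht ι p.1 p.2) + Real.exp (-2 * Λ) * pq (It f n (cht ι p.1 p.2)) ^ 2) ^ 2 ∧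
    (cv f n (cht ι p.1 p.2) = 0 → He f n ι p = 0)

/-- Row MN2 (medium; from CHB). Integration over the cone. `Y = λ • cht ι x y`: for `ι = 0` `Y = (λ, λx, λy)`, for `ι = 1` `Y = (λx, λ, λy)`. For fixed `λ ≠ 0` the map `(x,y) ↦ (λx,λy)` multiplies the measure by `|λ|⁴` (`Measure.addHaar_preimage_smul` or the change of variables for linear maps); Tonelli for
`Fin 3 → ℂ` (`MeasurableEquiv.piFinSuccAbove`/`volume_preserving_piFinSuccAbove`). If `|λ| ≤ r₀ := 1/(3+R)` and `‖x‖ ≤ 3`, `‖y‖ ≤ R` then `‖Y‖ ≤ 1`, and `h Y = h (cht ι x y)`: so the right integral is at least `∫_(|λ|≤r₀) |λ|⁴ · ∫ h(cht ι x y)`. -/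
def MN2_stmt : Prop :=
  ∀ (d : ℕ) (f : Endo 2 d) (U : Set (PP 2)), Good0 f U → ∃ C : ℝ, 0 < C ∧ ∀ (S : Set (PP 2)) (h : E3 → ENNReal) (ι : Fin 2), IsOpen S → S ⊆ U →
    Measurable ((cone S).indicator h) → (∀ (Y : E3) (c : ℂ), c ≠ 0 → h (c • Y) = h Y) →
    ∫⁻ p in {p : ℂ × ℂ | ‖p.1‖ ≤ 3 ∧ cht ι p.1 p.2 ∈ cone S}, h (cht ι p.1 p.2) ≤ ENNReal.ofReal C * ∫⁻ Y in closedBall (0 : E3) 1 ∩ cone S, h Y

/-- Row MNC (medium; from MAN MN1 MN2 PSC ENC). Intersect the `𝒱` of `MAN` with `Us 0`. Let `n ∈ G`, `Λ_j → ∞` the numbers of `MAN`. Where `c = cv f n Z ≠ 0`: `MN1` gives `He ≤ C ed f n (Psc f n Λ_j) Z (1 + e^(-2Λ_j) pq²/(nq c nq Z))² ≤ 2 C ed f n (Psc f n Λ_j) Z` for large `j`; where `c = 0` `He = 0`. So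
`He ≤ liminf 2 C ed(Λ_j)`, and `ed = eh/nq³ ≤ eh` (`nq Z ≥ 1`, `ed ≥ 0` by `ENC` and `PSC`). Fatou (`lintegral_liminf_le'` on the open set; `p ↦ ed` is continuous there since `Psc` is smooth on the cone) and `MN2` with `h = ofReal (eh f n (Psc f n Λ_j))` (degree `0`). -/
def MNC_stmt : Prop :=
  ∀ (d : ℕ) (f : Endo 2 d) (Us : ℕ → Set (PP 2)) (K : Set (PP 2)), 2 ≤ d → Core f Us K → ∀ ε : ℝ, 0 < ε →
    ∃ (𝒱 : Set (PP 2)) (C : ℝ) (G : Set ℕ), IsOpen 𝒱 ∧ K ⊆ 𝒱 ∧ 𝒱 ⊆ Us 0 ∧ 0 < C ∧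
      (∀ L : ℕ, ((Nat.card {n : ℕ // n < L ∧ n ∉ G} : ℕ) : ℝ) ≤ ε * L + C) ∧
      ∀ n ∈ G, ∀ ι : Fin 2, ∫⁻ p in {p : ℂ × ℂ | ‖p.1‖ ≤ 3 ∧ cht ι p.1 p.2 ∈ cone 𝒱}, ENNReal.ofReal (He f n ι p) ≤ ENNReal.ofReal C

/-- Row TUE (medium). Gauss energy in tube coordinates. `Φ(ξ,w) = (c+κξ, γ(ξ)+κw)`, `q = Φ p`, `P' = P ∘ Φ`, `Q' = Q ∘ Φ`. Chain rule: `cx' = κ c_x + γ' c_y`, `cv' = κ c_y` (values at `q`), and for every function `h`: `(h∘Φ)'(ef') = κ² h'(ef)` at `q`, where `ef = (c_y, -c_x)`, `ef' = (cv', -cx')`. So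
`nn' = cx' (cv')'(ef') - cv' (cx')'(ef') = κ⁴ nn - κ² γ''(ξ) c_y³`, and `|c_x|²+|c_y|² ≤ C (|cx'|²+|cv'|²)` (`|γ'| ≤ 2R`, `|γ''| ≤ 16 R` for `|ξ| < 1/2` by Cauchy). Hence `|nn'|²/(|cx'|²+|cv'|²)² ≤ C (|nn|²/(|c_x|²+|c_y|²)² + |c_y|²)`; if `c_x = c_y = 0` everything is `0`. `om' = om`. -/
def TUE_stmt : Prop :=
  ∀ κ R : ℝ, 0 < κ → 1 ≤ R → ∃ C : ℝ, 0 < C ∧ ∀ (P Q : ℂ × ℂ → ℂ) (γ : ℂ → ℂ) (c : ℂ) (p : ℂ × ℂ), DifferentiableOn ℂ γ (ball 0 1) → (∀ ξ ∈ ball (0 : ℂ) 1, ‖γ ξ‖ ≤ R) → ‖p.1‖ < 1 / 2 →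
    AnalyticAt ℂ P (c + κ * p.1, γ p.1 + κ * p.2) → AnalyticAt ℂ Q (c + κ * p.1, γ p.1 + κ * p.2) →
    P2U.Gd (fun q : ℂ × ℂ => P (c + κ * q.1, γ q.1 + κ * q.2)) (fun q : ℂ × ℂ => Q (c + κ * q.1, γ q.1 + κ * q.2)) p ≤
      C * (P2U.Gd P Q (c + κ * p.1, γ p.1 + κ * p.2) + (‖P2U.cx P Q (c + κ * p.1, γ p.1 + κ * p.2)‖ ^ 2 + ‖P2U.cv P Q (c + κ * p.1, γ p.1 + κ * p.2)‖ ^ 2))

/-- Row TEN (medium; from CHB TUE). `iP f n ι c κ γ = hP f n ι ∘ Φ` (definition). `TUE` with the `R` of `CHB` (`|c + κξ| ≤ 3`, so `|γ| ≤ R`), times `om/dⁿ`, and the change of variables `Φ` (injective on `{|ξ| < 1}`, real Jacobian `κ⁴`; `lintegral_image_eq_lintegral_abs_det_fderiv_mul`, or first the translation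
by `γ(ξ)` in each fibre with Tonelli and then the homothety). -/
def TEN_stmt : Prop :=
  ∀ (d : ℕ) (f : Endo 2 d) (U : Set (PP 2)), 2 ≤ d → Good0 f U → ∀ κ : ℝ, 0 < κ → κ ≤ 1 / 10 → ∃ C : ℝ, 0 < C ∧
    ∀ (n : ℕ) (ι : Fin 2) (c : ℂ) (γ : ℂ → ℂ) (t : ℝ) (B : Set ℂ), ‖c‖ ≤ 2 → 0 < t → MeasurableSet B → DifferentiableOn ℂ γ (ball 0 1) →
      (∀ ξ ∈ ball (0 : ℂ) 1, ∀ v ∈ ball (0 : ℂ) (κ * t), gp ι c κ γ (ξ, v) ∈ cone U) →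
      EnT f n ι c κ γ t B ≤ ENNReal.ofReal C * ∫⁻ q in {q : ℂ × ℂ | ∃ ξ : ℂ, ‖ξ‖ < 1 / 2 ∧ ξ ∉ B ∧ q.1 = c + κ * ξ ∧ ‖q.2 - γ ξ‖ < κ * t}, ENNReal.ofReal (He f n ι q)

/-- Row SEP (medium). The number of discs depends only on `R`, `r`. Let `‖g ξ₀‖ ≥ r`, `‖ξ₀‖ ≤ 1/2`. If `g` has `m` zeros in `closedBall 0 (3/4)` (with multiplicity), then `g = B h` with the Blaschke product `B = ∏ (ξ - z_i)/(1 - conj(z_i) ξ)` and `h` holomorphic, `|h| ≤ R` (divide by one factor after the other: `|g/b| ≤ R` by the maximum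
principle on circles of radius `→ 1`). `|B(ξ₀)| ≤ q^m` with `q < 1` the maximal pseudo-hyperbolic distance between points of `closedBall 0 (1/2)` and `closedBall 0 (3/4)`: `r ≤ q^m R`, so `m ≤ n₁ := ⌈log(R/r)/log(1/q)⌉`. `h` has no zero in `closedBall 0 (3/4)`, `|h(ξ₀)| ≥ r`: by Harnack for the positive harmonic function
`log(R'/|h|)` on `ball 0 (3/4)` (`R' > R`; or: `h = e^k`, Borel-Caratheodory/Schwarz lemma for the half plane) `|h| ≥ h₀(r,R) > 0` on `closedBall 0 (1/2)`. If `‖g ξ‖ < t₀` then `∏ |ξ - z_i|/2 ≤ |B(ξ)| < t₀/h₀`, so some `|ξ - z_i| < 2 (t₀/h₀)^(1/m) ≤ ρ` for small `t₀` (`t₀ < h₀` if `m = 0`). -/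
def SEP_stmt : Prop :=
  ∀ R r : ℝ, 0 < r → r ≤ R → ∃ n1 : ℕ, ∀ ρ : ℝ, 0 < ρ → ∃ t0 : ℝ, 0 < t0 ∧ ∀ g : ℂ → ℂ, DifferentiableOn ℂ g (ball 0 1) → (∀ ξ ∈ ball (0 : ℂ) 1, ‖g ξ‖ ≤ R) →
    (∃ ξ ∈ closedBall (0 : ℂ) (1 / 2), r ≤ ‖g ξ‖) → ∃ z : Fin n1 → ℂ, ∀ ξ ∈ closedBall (0 : ℂ) (1 / 2), ‖g ξ‖ < t0 → ∃ i, ‖ξ - z i‖ < ρ

/-- `γ` is `r`-close to `γ₀` on the half disc -/
def Clo (γ₀ : ℂ → ℂ) (r : ℝ) (γ : ℂ → ℂ) : Prop := ∀ ζ ∈ closedBall (0 : ℂ) (1 / 2), ‖γ ζ - γ₀ ζ‖ ≤ r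

/-- Row ENP (medium; from CHB MNC TEN SEP): energy packing. `𝒱, C_B, G` of `MNC`; `C₁` of `TEN` (for `Us 0`), `R` of `CHB`, `M := ⌈C₁ C_B/ε₁⌉ + 1`; `n₁` of `SEP` for `2R` and `r` (if `r > 2R` any two graphs are close and one can take `n₁` for `r = 2R`), `nB := M n₁`; `t₀` with `2κt₀ ≤` the number of `SEP` for `ρ`. Fix `n ∈ G`, `ι`, `c`.
Claim: there are no `m = M` bad graphs `γ_1..γ_m` with `¬ Clo (γ_j) r (γ_i)` for `i ≠ j`. Let `B_i` be the union of the discs of `SEP` for the functions `γ_i - γ_j`, `j ≠ i` (the same discs for `(i,j)` and `(j,i)`): at most `nB` discs of radius `ρ` (repeat discs to have exactly `nB`), and `‖γ_i ξ - γ_j ξ‖ ≥ 2κt` for `ξ ∉ B_i`, `‖ξ‖ ≤ 1/2`. So the sets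
`S_i = {q | ∃ ξ ∉ B_i, ‖ξ‖ < 1/2, q.1 = c + κξ, ‖q.2 - γ_i ξ‖ < κt}` are pairwise disjoint, contained in the domain of `MNC`, and measurable (open, if the discs are taken closed: or use closed discs/`toMeasurable`; the discs `ball (z i) ρ` are open, then `S_i` is the image of a measurable set by `Φ`). `TEN`: `ε₁ M < ∑ EnT ≤ C₁ C_B`, a contradiction. Take a
maximal `r`-separated family of bad graphs: it has fewer than `M` elements (`Clo` is symmetric), let `F` enumerate it (repeat; arbitrary if it is empty). -/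
def ENP_stmt : Prop :=
  ∀ (d : ℕ) (f : Endo 2 d) (Us : ℕ → Set (PP 2)) (K : Set (PP 2)), 2 ≤ d → Core f Us K → ∀ ε : ℝ, 0 < ε →
    ∃ (𝒱 : Set (PP 2)) (C : ℝ) (G : Set ℕ), IsOpen 𝒱 ∧ K ⊆ 𝒱 ∧ 𝒱 ⊆ Us 0 ∧ 0 < C ∧
      (∀ L : ℕ, ((Nat.card {n : ℕ // n < L ∧ n ∉ G} : ℕ) : ℝ) ≤ ε * L + C) ∧
      ∀ κ ε1 : ℝ, 0 < κ → κ ≤ 1 / 10 → 0 < ε1 → ∃ M : ℕ, ∀ r : ℝ, 0 < r → ∃ nB : ℕ, ∀ ρ : ℝ, 0 < ρ → ∃ t0 : ℝ, 0 < t0 ∧ ∀ t : ℝ, 0 < t → t ≤ t0 →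
        ∀ n ∈ G, ∀ (ι : Fin 2) (c : ℂ), ‖c‖ ≤ 2 → ∃ F : Fin M → ℂ → ℂ, ∀ γ : ℂ → ℂ, DifferentiableOn ℂ γ (ball 0 1) →
          (∀ ξ ∈ ball (0 : ℂ) 1, ∀ v ∈ ball (0 : ℂ) (κ * t), gp ι c κ γ (ξ, v) ∈ cone 𝒱) → ¬ EB f n ι c κ γ t nB ρ ε1 → ∃ i, Clo (F i) r γ

/-- Row NNG (short). `Af ≥ 0`, so `Lf ≥ 0` (the logarithm is monotone), `gt ≥ 0`: `QR ≥ 0` (a non-integrable function has integral `0`). -/
def NNG_stmt : Prop :=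
  ∀ (d : ℕ) (f : Endo 2 d) (N : ℕ) (ι : Fin 2) (c : ℂ) (κ : ℝ) (γ : ℂ → ℂ) (m : ℕ) (Λ s : ℝ), 2 ≤ d → 0 ≤ QR f m Λ s N ι c κ γ

/-! ### Islands and measures -/

/-- normalised island (zero outside of the disc) -/
def NI {d : ℕ} (f : Endo 2 d) (Z : ℂ → E3) (k : ℕ) (ι : Fin 2) (c : ℂ) (κ : ℝ) (g γ : ℂ → ℂ) : Prop :=
  Isl f Z k ι c κ g γ ∧ (∀ ξ ∉ ball (0 : ℂ) 1, g ξ = 0) ∧ ∀ ξ ∉ ball (0 : ℂ) 1, γ ξ = 0

/-- the law on the disc -/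
noncomputable def mz {d : ℕ} (f : Endo 2 d) (N : ℕ) (Z : ℂ → E3) : Measure ℂ :=
  volume.withDensity (fun z => ENNReal.ofReal (eta z ^ 2 * tau f N Z z / mass f N Z))

/-- points `g ξ` of the inner parts of the islands at time `k` over `(ι, c, κ)`, with `R γ ξ` -/
def Pt {d : ℕ} (f : Endo 2 d) (Z : ℂ → E3) (k : ℕ) (ι : Fin 2) (c : ℂ) (κ : ℝ) (R : (ℂ → ℂ) → ℂ → Prop) : Set ℂ :=
  {z | ∃ (g γ : ℂ → ℂ) (ξ : ℂ), NI f Z k ι c κ g γ ∧ ‖ξ‖ ≤ 1 / 32 ∧ g ξ = z ∧ R γ ξ}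

/-- standing assumptions on a disc -/
structure SD {d : ℕ} (f : Endo 2 d) (U : Set (PP 2)) (N k : ℕ) (Z : ℂ → E3) (Kb : ℝ) (c : ℂ) : Prop where
  kN : k ≤ N
  dsc : Dsc U Z
  m1 : 1 ≤ mass f N Z
  ub : ∀ z ∈ ball (0 : ℂ) 1, |un f N (Z z)| ≤ Kb * mass f N Z
  c2 : ‖c‖ ≤ 2

/-- complete finite family of islands at time `k` over `(ι, c, κ)` -/
structure Fam {d : ℕ} (f : Endo 2 d) (N : ℕ) (Z : ℂ → E3) (k : ℕ) (ι : Fin 2) (c : ℂ) (κ C : ℝ) (n : ℕ) (A : Fin n → ID) : Prop where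
  isl : ∀ a, (A a).ι = ι ∧ (A a).c = c ∧ NI f Z k ι c κ (A a).g (A a).γ
  dis : ∀ a b, a ≠ b → Disjoint ((A a).g '' ball 0 1) ((A b).g '' ball 0 1)
  card : (n : ℝ) ≤ C * ((d : ℝ) ^ k * mass f N Z)
  all : ∀ g γ : ℂ → ℂ, NI f Z k ι c κ g γ → (∃ ξ ∈ closedBall (0 : ℂ) (1 / 32), eta (g ξ) ≠ 0) → ∃ a, g = (A a).g ∧ γ = (A a).γ

/-- Row UNI (short to medium): islands are determined by one point. Let `x(z)` be the chart coordinate (`Z_1/Z_0` for `ι = 0`, `Z_0/Z_1` for `ι = 1`) of `It f k (Z z)`; it is holomorphic near the points of an island, and `x(g ξ) = c + κ ξ`. So `ξ = ξ'` if `g ξ = g' ξ'`, `g` is injective, `x'(z) ≠ 0` at the common point, `x` is injective near it, hence `g = g'` near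
`ξ` and on the disc (identity theorem); `γ ξ` is the other chart coordinate of `It f k (Z (g ξ))`. The points `gp ι c κ γ (ξ, 0)` are proportional to `It f k (Z (g ξ))`, which is in the cone of every trapping `V` containing the disc. Third part: multiply `g`, `γ` by the indicator of the ball. -/
def UNI_stmt : Prop :=
  ∀ (d : ℕ) (f : Endo 2 d) (V : Set (PP 2)) (Z : ℂ → E3) (k : ℕ) (ι : Fin 2) (c : ℂ) (κ : ℝ), IsTrapping f V → Dsc V Z → 0 < κ →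
    (∀ (g γ g' γ' : ℂ → ℂ) (ξ ξ' : ℂ), Isl f Z k ι c κ g γ → Isl f Z k ι c κ g' γ' → ξ ∈ ball (0 : ℂ) 1 → ξ' ∈ ball (0 : ℂ) 1 → g ξ = g' ξ' →
      ξ = ξ' ∧ EqOn g g' (ball 0 1) ∧ EqOn γ γ' (ball 0 1)) ∧
    (∀ g γ : ℂ → ℂ, Isl f Z k ι c κ g γ → InjOn g (ball 0 1) ∧ (∀ ξ ∈ ball (0 : ℂ) 1, gp ι c κ γ (ξ, 0) ∈ cone V) ∧
      ∃ g' γ' : ℂ → ℂ, NI f Z k ι c κ g' γ' ∧ EqOn g g' (ball 0 1) ∧ EqOn γ γ' (ball 0 1))

/-- Row ISM (medium; from UN1 MSS CHB UNI): masses. Near a point of the island `It f k (Z (g ξ)) = a(ξ) • gp ι c κ γ (ξ,0)` with `a` the component number `ι` of the left side (the component number `ι` of `cht ι x y` is `1`): `a` is holomorphic, `≠ 0`. `It f N (Z z) = It f (N-k) (It f k (Z z))` and homogeneity of degree `d^(N-k)`: the expression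
`|Q dP - P dQ|²/(|P|²+|Q|²)²` does not change if `(P,Q)` is multiplied by a nonvanishing holomorphic function. This gives the first formula (chain rule for `z = g ξ`). Third: change of variables (`g` injective and holomorphic: `lintegral_image_eq_lintegral_abs_det_fderiv_mul`, real Jacobian `|g'|²`). Second: `gt f N' ι c κ γ (ξ,0)` is the `lap` of the function
`un f N' (gp ι c κ γ (ξ,0))` (`MSS` for the disc `ξ ↦ gp ι c κ γ (ξ,0)` in `U`), which is bounded by a constant (`UN1`; `CHB` (1): `|γ| ≤ R`): integrate against a cut-off which is `1` on `closedBall 0 (3/4)`. -/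
def ISM_stmt : Prop :=
  ∀ (d : ℕ) (f : Endo 2 d) (U : Set (PP 2)), 2 ≤ d → Good0 f U → ∃ C : ℝ, 0 < C ∧
    ∀ (N k : ℕ) (Z : ℂ → E3) (ι : Fin 2) (c : ℂ) (κ : ℝ) (g γ : ℂ → ℂ), 0 < κ → κ ≤ 1 / 10 → k ≤ N → Dsc U Z → ‖c‖ ≤ 2 → Isl f Z k ι c κ g γ →
      (∀ ξ ∈ ball (0 : ℂ) 1, 0 ≤ gt f (N - k) ι c κ γ (ξ, 0) ∧ tau f N Z (g ξ) * Complex.normSq (deriv g ξ) = gt f (N - k) ι c κ γ (ξ, 0) / (d : ℝ) ^ k) ∧
      (∫⁻ ξ in closedBall (0 : ℂ) (3 / 4), ENNReal.ofReal (gt f (N - k) ι c κ γ (ξ, 0)) ≤ ENNReal.ofReal C) ∧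
      (∀ S : Set ℂ, MeasurableSet S → S ⊆ ball 0 1 → ∫⁻ z in g '' S, ENNReal.ofReal (tau f N Z z) =
        ∫⁻ ξ in S, ENNReal.ofReal (gt f (N - k) ι c κ γ (ξ, 0) / (d : ℝ) ^ k)) ∧
      ContinuousOn (fun ξ => gt f (N - k) ι c κ γ (ξ, 0)) (ball 0 1)

/-- Row DIA (short to medium): diameters. For `ξ, ξ'` in `closedBall 0 (1/2)`: `|g ξ - g ξ'| ≤ sup_(|ζ|≤1/2) |g'|`, and `|g'(ζ)|² ≤ (16/π) ∫_(ball ζ (1/4)) |g'|² ≤ (16/π) area(g(ball 0 1))` (mean value property of `g'` and Cauchy-Schwarz; injectivity: change of variables). The images are disjoint subsets of the unit disc: `∑ area ≤ π`. Second inequality: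
Cauchy-Schwarz. -/
def DIA_stmt : Prop :=
  ∃ C : ℝ, 0 < C ∧ ∀ (n : ℕ) (g : Fin n → ℂ → ℂ) (D : Fin n → ℝ),
    (∀ a, DifferentiableOn ℂ (g a) (ball 0 1) ∧ InjOn (g a) (ball 0 1) ∧ ∀ ξ ∈ ball (0 : ℂ) 1, g a ξ ∈ ball (0 : ℂ) 1) →
    (∀ a b, a ≠ b → Disjoint (g a '' ball 0 1) (g b '' ball 0 1)) →
    (∀ a, 0 ≤ D a ∧ ∃ ξ ∈ closedBall (0 : ℂ) (1 / 2), ∃ ξ' ∈ closedBall (0 : ℂ) (1 / 2), D a ≤ ‖g a ξ - g a ξ'‖) →
    ∑ a, D a ^ 2 ≤ C ∧ ∑ a, D a ≤ Real.sqrt (C * n)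

/-- Row FAM (medium; from UN1 MSS UNI ISM DIA): there are finitely many islands. Consider a finite family of pairwise disjoint normalised islands over `(ι,c,κ)` at time `k`, each with a point of `g(closedBall 0 (1/32))` in `{eta ≠ 0} ⊆ {|z| ≤ 4/5}`. Those with `|g ξ - g ξ'| ≥ 1/20` for some `ξ, ξ'` in the half disc: at most `400 C` (`DIA`). For the others
`g(ball 0 (1/2)) ⊆ ball 0 (9/10)`. With a cut-off `χ` (`1` on `ball 0 (9/10)`): `∫ χ tau f k Z ≤ sup|lap χ| π sup|un f k (Z z)| ≤ C (Kb mass + C)` (`MSS`, `UN1`: `|un f N - un f k| ≤ C`), and for each island `d^k ∫_(g(ball 0 (1/2))) tau f k Z = ∫_(ball 0 (1/2)) gt f 0 ι c κ γ (ξ,0) = ∫ (1/2) κ²/(1+|c+κξ|²)² ≥ c₀ κ²` (`ISM` with `N = k`; `It f 0 = id`).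
So their number is at most `C κ⁻² d^k (Kb mass + C) ≤ C' d^k mass`. Take a family with the maximal number of elements; an island with a point of `{eta ≠ 0}` that is not in the family is disjoint from all its members (`UNI`; normalised functions which agree on the ball are equal): contradiction to maximality. -/
def FAM_stmt : Prop :=
  ∀ (d : ℕ) (f : Endo 2 d) (U : Set (PP 2)), 2 ≤ d → Good0 f U → ∀ κ Kb : ℝ, 0 < κ → κ ≤ 1 / 10 → 0 < Kb → ∃ C : ℝ, 0 < C ∧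
    ∀ (N k : ℕ) (Z : ℂ → E3) (ι : Fin 2) (c : ℂ), SD f U N k Z Kb c → ∃ (n : ℕ) (A : Fin n → ID), Fam f N Z k ι c κ C n A

/-- Row BK1 (short to medium; from ISM FAM). `{eta = 0}` is `mz`-null, `eta ≤ 1`. `Pt ∩ {eta ≠ 0} ⊆ ⋃ a, g_a '' (Bad_a ∩ closedBall 0 (1/32))`, so `mz (Pt) ≤ ∑ a ∫⁻_(g_a '' ..) ofReal (tau/mass) ≤ ∑ a ofReal ((d^k mass)⁻¹ εT) ≤ n (d^k mass)⁻¹ εT ≤ C εT` (`withDensity_apply'` for arbitrary sets). -/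
def BK1_stmt : Prop :=
  ∀ (d : ℕ) (f : Endo 2 d) (U : Set (PP 2)), 2 ≤ d → Good0 f U → ∀ κ Kb : ℝ, 0 < κ → κ ≤ 1 / 10 → 0 < Kb → ∃ C : ℝ, 0 < C ∧
    ∀ (N k : ℕ) (Z : ℂ → E3) (ι : Fin 2) (c : ℂ), SD f U N k Z Kb c → ∀ (R : (ℂ → ℂ) → ℂ → Prop) (εT : ℝ), 0 ≤ εT →
      (∀ g γ : ℂ → ℂ, NI f Z k ι c κ g γ → ∃ Bad : Set ℂ, MeasurableSet Bad ∧ (∀ ξ : ℂ, ‖ξ‖ ≤ 1 / 32 → R γ ξ → ξ ∈ Bad) ∧
        ∫⁻ ξ in Bad ∩ closedBall 0 (1 / 32), ENNReal.ofReal (gt f (N - k) ι c κ γ (ξ, 0)) ≤ ENNReal.ofReal εT) →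
      mz f N Z (Pt f Z k ι c κ R) ≤ ENNReal.ofReal (C * εT)

open Classical in
/-- Row BK2 (medium; from ISM DIA). Here `R` does not depend on `ξ`. `Pt ∩ {eta ≠ 0} ⊆ ⋃ {a | 𝒬 γ_a} g_a '' closedBall 0 (1/32)`. On this set `eta² ≤ eta(g_a 0)² + 2 C_η D_a`, `D_a = sup_(|ξ|≤1/2) |g_a ξ - g_a 0|` (`C_η` a Lipschitz constant of `eta`, which is smooth with compact support, `0 ≤ eta ≤ 1`), and its `tau`-mass is `≤ C d^(-k)` (`ISM`). So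
`mz (Pt) ≤ C (d^k mass)⁻¹ ∑_(𝒬) (eta(g_a 0)² + 2 C_η D_a)` and `∑ D_a ≤ sqrt(C n) ≤ sqrt(C C1 d^k mass)` (`DIA`, take for `D_a` half of the supremum or a value). -/
def BK2_stmt : Prop :=
  ∀ (d : ℕ) (f : Endo 2 d) (U : Set (PP 2)), 2 ≤ d → Good0 f U → ∀ κ Kb C1 : ℝ, 0 < κ → κ ≤ 1 / 10 → 0 < Kb → 0 < C1 → ∃ C : ℝ, 0 < C ∧
    ∀ (N k : ℕ) (Z : ℂ → E3) (ι : Fin 2) (c : ℂ), SD f U N k Z Kb c → ∀ (n : ℕ) (A : Fin n → ID), Fam f N Z k ι c κ C1 n A →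
      ∀ 𝒬 : (ℂ → ℂ) → Prop, mz f N Z (Pt f Z k ι c κ (fun γ _ => 𝒬 γ)) ≤
        ENNReal.ofReal (C * (((d : ℝ) ^ k * mass f N Z)⁻¹ * (∑ a, if 𝒬 (A a).γ then eta ((A a).g 0) ^ 2 else 0) + ((d : ℝ) ^ k * mass f N Z) ^ (-(1 / 2) : ℝ)))

/-! ### The sequence of discs; Markov inequalities; pairs -/

/-- a sequence of near-maximal discs -/
structure NMD {d : ℕ} (f : Endo 2 d) (Us : ℕ → Set (PP 2)) (Λ1 Kb κ : ℝ) (L N : ℕ → ℕ) (Z : ℕ → ℂ → E3) : Prop where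
  size : ∀ J, J ≤ L J ∧ L J + J ≤ N J ∧ Dsc (Us J) (Z J) ∧ (J : ℝ) ≤ mass f (N J) (Z J) ∧
    ∀ z ∈ ball (0 : ℂ) 1, |un f (N J) (Z J z)| ≤ Kb * mass f (N J) (Z J)
  vb : ∀ ε : ℝ, 0 < ε → ∃ (m0 : ℕ) (s0 : ℝ), 0 < s0 ∧ ∀ (s : ℝ) (m : ℕ), 0 < s → s ≤ s0 → m0 ≤ m → ∃ J2 : ℕ, ∀ J ≥ J2,
    ∀ (n : ℕ → ℕ) (A : (i : ℕ) → Fin (n i) → ID),
      (∀ i, ∀ a : Fin (n i), ‖(A i a).c‖ ≤ 2 ∧ Isl f (Z J) i (A i a).ι (A i a).c κ (A i a).g (A i a).γ) →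
      (∀ i, ∀ a b : Fin (n i), a ≠ b → Disjoint ((A i a).g '' ball 0 1) ((A i b).g '' ball 0 1)) →
      ∑ i ∈ Finset.Ico 1 (L J), (((d : ℝ) ^ i * mass f (N J) (Z J))⁻¹ * ∑ a : Fin (n i), eta ((A i a).g 0) ^ 2 *
        QR f m (Λ1 * m) s (N J - i) (A i a).ι (A i a).c κ (A i a).γ) ≤ ε * m * L J

/-- Row DIAG (short; from VBL): apply `VBL` for every `J` with `m₁ = L₀ = M₀ = J`, `s₁ = ε₁ = 1/(J+1)`. Given `ε`: `m0 := m0 ε`, `s0 := s0 ε`; for `s, m` take `J2` with `J2 ≥ J0 ε`, `J2 ≥ m`, `1/(J2+1) ≤ min s ε`. -/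
def DIAG_stmt : Prop :=
  ∀ (d : ℕ) (f : Endo 2 d) (Us : ℕ → Set (PP 2)) (K : Set (PP 2)), 2 ≤ d → Core f Us K → ∃ Λ1 Kb : ℝ, 0 < Λ1 ∧ 0 < Kb ∧
    ∀ κ : ℝ, 0 < κ → κ ≤ 1 / 10 → ∃ (L N : ℕ → ℕ) (Z : ℕ → ℂ → E3), NMD f Us Λ1 Kb κ L N Z

/-- Row PR2 (medium; from NNG FAM BK2). Fix `ε, ε2`. For each `J` (large), centre `(ι,c)` and `1 ≤ k < L J` let `A_k` be a complete family (`FAM`, for `Us 0`; `Us J ⊆ Us 0`), and the subfamily of the `a` with `ε2 m < QR ..`; nothing for the other `k` (`n k = 0`). `NMD.vb` with a small `ε'` gives `m0, s0` (make `m0 ≥ 1`). Markov (`NNG`):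
`∑_k (d^k mass)⁻¹ ∑_a eta(g_a 0)² 1[QR > ε2 m] ≤ (ε2 m)⁻¹ ε' m L`. `BK2` for `𝒬 γ := ε2 m < QR ..`, and `∑_k (d^k mass)^(-1/2) ≤ L J^(-1/2)`: total `≤ C (ε'/ε2 + J^(-1/2)) L`. -/
def PR2_stmt : Prop :=
  ∀ (d : ℕ) (f : Endo 2 d) (Us : ℕ → Set (PP 2)) (K : Set (PP 2)), 2 ≤ d → Core f Us K → ∀ (Λ1 Kb κ : ℝ) (L N : ℕ → ℕ) (Z : ℕ → ℂ → E3),
    0 < Λ1 → 0 < Kb → 0 < κ → κ ≤ 1 / 10 → NMD f Us Λ1 Kb κ L N Z → ∀ ε ε2 : ℝ, 0 < ε → 0 < ε2 →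
      ∃ (m0 : ℕ) (s0 : ℝ), 0 < s0 ∧ ∀ (s : ℝ) (m : ℕ), 0 < s → s ≤ s0 → m0 ≤ m → ∃ J2 : ℕ, ∀ J ≥ J2, ∀ (ι : Fin 2) (c : ℂ), ‖c‖ ≤ 2 →
        ∑ k ∈ Finset.Ico 1 (L J), mz f (N J) (Z J) (Pt f (Z J) k ι c κ (fun γ _ => ε2 * m < QR f m (Λ1 * m) s (N J - k) ι c κ γ)) ≤ ENNReal.ofReal (ε * L J)

/-- no graph is visited (up to `r`) by a proportion more than `α` -/
def Non {d : ℕ} (f : Endo 2 d) (N L : ℕ) (Z : ℂ → E3) (κ r α : ℝ) : Prop :=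
  ∀ (ι : Fin 2) (c : ℂ) (γ₀ : ℂ → ℂ), ‖c‖ ≤ 2 → ∑ k ∈ Finset.Ico 1 L, mz f N Z (Pt f Z k ι c κ (fun γ _ => Clo γ₀ r γ)) ≤ ENNReal.ofReal (α * L)

/-- lattice of the centres -/
def ctr (κ : ℝ) : Set ℂ := {c | ‖c‖ ≤ 2 ∧ ∃ a b : ℤ, c = ((κ / 64 : ℝ) : ℂ) * ((a : ℂ) + (b : ℂ) * Complex.I)}

/-- lattice point near `x` -/
noncomputable def rd (κ : ℝ) (x : ℂ) : ℂ := ((κ / 64 : ℝ) : ℂ) * ((round (64 * x.re / κ) : ℂ) + (round (64 * x.im / κ) : ℂ) * Complex.I)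

open Classical in
/-- the chart of a point -/
noncomputable def chi (Y : E3) : Fin 2 := if ‖Y 1‖ ≤ ‖Y 0‖ then 0 else 1

open Classical in
/-- the coordinate of a point -/
noncomputable def chx (Y : E3) : ℂ := if ‖Y 1‖ ≤ ‖Y 0‖ then Y 1 / Y 0 else Y 0 / Y 1

/-- Row LAT (short): lattice and charts. -/
def LAT_stmt : Prop :=
  (∀ κ : ℝ, 0 < κ → (ctr κ).Finite) ∧ (∀ (κ : ℝ) (x : ℂ), 0 < κ → ‖x - rd κ x‖ ≤ κ / 64) ∧
  (∀ (κ : ℝ) (x : ℂ), 0 < κ → κ ≤ 1 → ‖x‖ ≤ 1 → rd κ x ∈ ctr κ) ∧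
  (∀ Y : E3, (Y 0 ≠ 0 ∨ Y 1 ≠ 0) → ‖chx Y‖ ≤ 1 ∧ ∃ a y : ℂ, a ≠ 0 ∧ Y = a • cht (chi Y) (chx Y) y) ∧
  (∀ (ι : Fin 2) (a b x y x' y' : ℂ), a ≠ 0 → b ≠ 0 → a • cht ι x y = b • cht ι x' y' → a = b ∧ x = x' ∧ y = y')

/-- points at time `k` which are not in a band of time `n` -/
def BPr {d : ℕ} (f : Endo 2 d) (Z : ℂ → E3) (n k : ℕ) (κ s κ' : ℝ) : Set ℂ :=
  ⋃ (ι : Fin 2), ⋃ c ∈ ctr κ, Pt f Z k ι c κ (fun γ ξ => ¬ BP f n ι c κ γ s κ' ξ)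

/-- for most times `n` most points (and times `k`) are in bands of time `n` -/
def PairAt {d : ℕ} (f : Endo 2 d) (κ ε : ℝ) (L N : ℕ → ℕ) (Z : ℕ → ℂ → E3) : Prop :=
  ∃ s κ' C : ℝ, 0 < s ∧ 0 < κ' ∧ κ' ≤ κ / 4 ∧ ∀ m1 : ℕ, ∃ J2 : ℕ, ∀ J ≥ J2, ∀ m ≤ m1,
    ((Nat.card {n : ℕ // 1 ≤ n ∧ n < m ∧ ¬ ∑ k ∈ Finset.Ico 1 (L J), mz f (N J) (Z J) (BPr f (Z J) n k κ s κ') ≤ ENNReal.ofReal (ε * L J)} : ℕ) : ℝ) ≤ ε * m + C

/-- Row PRB (medium-long; from CHB LAT UNI ENP TUB ARE BK1 PR2): Case B gives `PairAt`. Let `q = 2 card (ctr κ)` (at least `1`). `ENP` with `ε/4`: `𝒱, G`; `ARE`: `𝒱'`. `CHB` (2) for `𝒱 ∩ 𝒱'`: `J₀, τ`: for graphs in `Us J`, `J ≥ J₀`, the tube `|v| < τ` is in the cone of `𝒱 ∩ 𝒱' ∩ Us 0` (`UNI`: the graph of an island is in the cone of `Us J`; `|c + κξ| ≤ 3`). `TUB` for `Us 0`, `τ, κ, Λ1`, `εT := ε/(4 q C_(BK1))`: `ε1`.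
`ENP` for `κ, ε1`: `M`. `α := ε/(4 q (M+1))`: this is the `α` of the statement. Given the sequence and `r, J1`: `ENP` `nB`; `TUB` `ρB`; `ENP` `t0`; `TUB` with `min t0 τ`: `t, ε2` (so `κ t ≤ τ`); `PR2` with `ε' := ε/(4q)` and `ε2`: `m0, s0`; `TUB` for `m0, min s0 τ`: `m, nm, s, sB, κB, ε3`; `ARE` for `κ, s, ε3`: `nA`. The constants of `PairAt` are `sB`, `κB`, `C := C_G + nm + nA + 1`.
Let `m1` be given, `J` large (larger than `J₀, J1, 1, nm + nA + m1 + 1`, and the `J2` of `PR2` for `(s, m)`). Let `n ≥ max nm nA`, `n ∈ G`, `n < m1`, and `1 ≤ k < L J` (so `n + nm ≤ N J - k`, `n + nA ≤ N J - k`; `SD` holds for `Us 0`). If `NI .. g γ`, `‖ξ‖ ≤ 1/32` and `¬ BP ..` then: either `¬ EB ..` (then `Clo (F i) r γ` for some `i < M`, `ENP`), or `QR > ε2 m`, or (`QA f n ≤ ε3` by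
`ARE`) `ξ` is in the bad set of `TUB`. So `BPr f Z n k ⊆ ⋃_(ι,c)` (these kinds of `Pt`; for the last one the relation is `EB ∧ QR ≤ ε2 m ∧ ¬ BP`, and `Bad = ∅` is chosen if the graph does not satisfy the first two). Sum over `k`: `Non` gives `q M α L ≤ εL/4`; `PR2` `q ε' L ≤ εL/4`; `BK1` `q C εT L ≤ εL/4`. So only `n < max nm nA` and `n ∉ G` are exceptional. -/
def PRB_stmt : Prop :=
  ∀ (d : ℕ) (f : Endo 2 d) (Us : ℕ → Set (PP 2)) (K : Set (PP 2)), 2 ≤ d → Core f Us K → ∀ Λ1 Kb κ ε : ℝ, 0 < Λ1 → 0 < Kb → 0 < κ → κ ≤ 1 / 10 → 0 < ε → ε ≤ 1 →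
    ∃ α : ℝ, 0 < α ∧ ∀ (L N : ℕ → ℕ) (Z : ℕ → ℂ → E3), NMD f Us Λ1 Kb κ L N Z → ∀ (r : ℝ) (J1 : ℕ), 0 < r → (∀ J ≥ J1, Non f (N J) (L J) (Z J) κ r α) →
      PairAt f κ ε L N Z

/-! ### Case A -/

/-- Row KOE (medium): Koebe. Notation: `g, h` injective and holomorphic on the unit disc, `z = g ξ = h ζ`. (a) Koebe's theorem: for an injective holomorphic `φ` on `ball a ρ`, `φ(ball a ρ) ⊇ ball (φ a) (ρ|φ'(a)|/4)`, and `|φ(x) - φ(a)| ≤ |φ'(a)| ρ t/(1-t)²` for `|x-a| = tρ` (search `Koebe` in `Pool/Agent`, e.g. helper29/GR, helper23/RT; any other constants are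
fine, also a proof by the area theorem or by normal families). Let `D = |g'(ξ)| > 0`. By (a) on `ball ξ (1/16)`: `g(ball 0 (1/8)) ⊇ ball z (D/64)`. If `h(ball 0 (1/2))` is not contained in it, some `|h ζ' - z| ≥ D/64`, and by the growth estimate (on `ball ζ (31/32)`) `|h'(ζ)| ≥ c₁ D`, so `h(ball 0 (3/4)) ⊇ ball z (|h'(ζ)| (11/16)/4) ⊇ ball z (c₂ D)`; and
`|g x - z| ≤ C D |x - ξ|` for `|x - ξ| ≤ 1/2`: `g(ball ξ c') ⊆ ball z (c₂ D)` for small `c'`. -/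
def KOE_stmt : Prop :=
  ∃ c' : ℝ, 0 < c' ∧ c' ≤ 1 / 16 ∧ ∀ (g h : ℂ → ℂ) (ξ ζ : ℂ), DifferentiableOn ℂ g (ball 0 1) → InjOn g (ball 0 1) → DifferentiableOn ℂ h (ball 0 1) → InjOn h (ball 0 1) →
    ‖ξ‖ ≤ 1 / 32 → ‖ζ‖ ≤ 1 / 32 → g ξ = h ζ → h '' ball 0 (1 / 2) ⊆ g '' ball 0 (1 / 8) ∨ g '' ball ξ c' ⊆ h '' ball 0 (3 / 4)

/-- Row SMM (short): points with little mass near them. Cover `closedBall 0 1` by `N₀` balls of radius `c'/2`; if `ξ` is in the set and in one of them, `B'`, then `B' ⊆ ball ξ c'` has `ν`-measure `≤ θ`. Measurable: `ξ ↦ ν (ball ξ c')` is lower semicontinuous. -/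
def SMM_stmt : Prop :=
  ∀ c' : ℝ, 0 < c' → ∃ C : ℝ, 0 < C ∧ ∀ (ν : Measure ℂ) (θ : ℝ), 0 ≤ θ → MeasurableSet {ξ : ℂ | ξ ∈ closedBall (0 : ℂ) 1 ∧ ν (ball ξ c') ≤ ENNReal.ofReal θ} ∧
    ν {ξ : ℂ | ξ ∈ closedBall (0 : ℂ) 1 ∧ ν (ball ξ c') ≤ ENNReal.ofReal θ} ≤ ENNReal.ofReal (C * θ)

/-- Row PGH (short to medium): pigeonhole. `∫ ∑ 1_(A k) ≥ αL`, so there is `z ∈ E` with at least `αL` indices `k ∈ [1,L)`, `z ∈ A k` (`exists_notMem_null_laverage_le`-type lemma, or: otherwise the integral is `< αL`). Among the `n0` residue classes one contains at least `αL/n0 ≥ 2` of them, so two consecutive ones have distance `≤ L/(αL/n0 - 1) ≤ 2n0/α`. `T := ⌈2n0/α⌉ + n0`. -/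
def PGH_stmt : Prop :=
  ∀ (α : ℝ) (n0 : ℕ), 0 < α → 0 < n0 → ∃ T L0 : ℕ, ∀ L ≥ L0, ∀ (μ : Measure ℂ) [IsProbabilityMeasure μ] (A : ℕ → Set ℂ) (E : Set ℂ), (∀ k, MeasurableSet (A k)) → MeasurableSet E → μ Eᶜ = 0 →
    ENNReal.ofReal (α * L) ≤ ∑ k ∈ Finset.Ico 1 L, μ (A k) → ∃ z ∈ E, ∃ k l : ℕ, 1 ≤ k ∧ k + n0 ≤ l ∧ l < L ∧ l ≤ k + T ∧ z ∈ A k ∧ z ∈ A l

/-- Row MZP (short; from MSS): `mz` is a probability measure, and `{eta = 0}` is a null set (`tau ≥ 0`; `tau f N Z` is continuous on the unit disc and `eta` vanishes outside: integrable). -/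
def MZP_stmt : Prop :=
  ∀ (d : ℕ) (f : Endo 2 d) (U : Set (PP 2)) (N : ℕ) (Z : ℂ → E3), 2 ≤ d → Good0 f U → Dsc U Z → 0 < mass f N Z →
    IsProbabilityMeasure (mz f N Z) ∧ mz f N Z {z : ℂ | eta z ≠ 0}ᶜ = 0 ∧ {z : ℂ | eta z ≠ 0} ⊆ ball 0 1 ∧ MeasurableSet {z : ℂ | eta z ≠ 0}

/-- Row AT4 (medium-long; from UNI ISM FAM BK1 KOE SMM PGH MZP): two close graphs, one is the image of a small part of the other. `c'` of `KOE`; `C_3` of `ISM`; `n0 ≥ 1` with `C_(BK1) C_(SMM) C_3 d^(-n0) ≤ α/4`, `θ := C_3 d^(-n0)`; `T, L0` of `PGH` for `3α/4`, `n0`. By `¬ Non` there are `ι, c, γ₀` with `αL < ∑_k mz (Pt_k)`. For each `k` let `A_k` be a complete family (`FAM`, `U`);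
`P_k := ⋃ {a | Clo γ₀ r γ_a} g_a '' closedBall 0 (1/32)` (compact), `mz (Pt_k) ≤ mz (P_k)`; `S_k := ⋃_a g_a '' SM_a`, `SM_a` the set of `SMM` for `ν = gt(ξ,0)` restricted to `closedBall 0 (3/4)`, intersected with `closedBall 0 (1/32)`; `mz (S_k) ≤ C_(BK1) C_(SMM) θ ≤ α/4` (`BK1` for the relation `ξ ∈ SM_γ`). `g_a '' SM_a` is measurable (`g_a` injective and continuous on the ball:
`MeasurableSet.image_of_continuousOn_injOn`). `PGH` for `P_k \ S_k` and `E = {eta ≠ 0}`: `z`, `k + n0 ≤ l ≤ k + T`, `z = g ξ = h ζ` with islands `(g,γ)` at time `k`, `(h,γ')` at time `l`, both `r`-close to `γ₀`. `KOE`: in the second case the `tau`-mass of `g(ball ξ c')` is `d^(-k) ν(ball ξ c') > d^(-k) θ`, and at most that of `h(ball 0 (3/4))`, which is `≤ d^(-l) C_3 ≤ d^(-k) θ` (`ISM` for both): contradiction.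
In the first case let, for `ζ' ∈ ball 0 (1/2)`, `X(ζ')` be the point of `ball 0 (1/8)` with `g (X ζ') = h ζ'`; `c + κ X(ζ')` is the chart coordinate of `It f k (Z (h ζ'))`, which is holomorphic in `ζ'`. `It f (l-k)` of `a • gp ι c κ γ (X ζ',0) = It f k (Z (h ζ'))` is `It f l (Z (h ζ')) = a' • gp ι c κ γ' (ζ',0)`. `n = l - k`. All points are in the cone of `V` (`UNI`). -/
def AT4_stmt : Prop :=
  ∀ (d : ℕ) (f : Endo 2 d) (U : Set (PP 2)), 2 ≤ d → Good0 f U → ∀ Kb κ α : ℝ, 0 < Kb → 0 < κ → κ ≤ 1 / 10 → 0 < α → ∃ T L0 : ℕ,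
    ∀ (V : Set (PP 2)) (L N : ℕ) (Z : ℂ → E3) (r : ℝ), IsTrapping f V → V ⊆ U → L0 ≤ L → L ≤ N → Dsc V Z → 1 ≤ mass f N Z → (∀ z ∈ ball (0 : ℂ) 1, |un f N (Z z)| ≤ Kb * mass f N Z) →
      ¬ Non f N L Z κ r α → ∃ (ι : Fin 2) (c : ℂ) (γ γ' X : ℂ → ℂ) (n : ℕ), ‖c‖ ≤ 2 ∧ 0 < n ∧ n ≤ T ∧ DifferentiableOn ℂ X (ball 0 (1 / 2)) ∧
        (∀ ζ ∈ ball (0 : ℂ) (1 / 2), X ζ ∈ ball (0 : ℂ) (1 / 8) ∧ gp ι c κ γ (X ζ, 0) ∈ cone V ∧ gp ι c κ γ' (ζ, 0) ∈ cone V ∧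
          ∃ a : ℂ, a ≠ 0 ∧ It f n (gp ι c κ γ (X ζ, 0)) = a • gp ι c κ γ' (ζ, 0)) ∧
        ∀ ζ ∈ closedBall (0 : ℂ) (1 / 2), ‖γ ζ - γ' ζ‖ ≤ 2 * r

/-- Row FIN (short): periodic points of bounded period in all `Us J` accumulate to a periodic point in `K`. `K = ⋂ closure (Us J)` (`Core.anti`), `PP 2` is compact (first countable or use cluster points of a sequence along an ultrafilter), one period `n ≤ T` occurs infinitely often, `f.map` is continuous (`map_cont`), `PP 2` is Hausdorff. More generally: if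
`p_J ∈ Us J`, `q_J ∈ Us J`, `f^(n_J) p_J = q_J`, `1 ≤ n_J ≤ T` and `p_J, q_J` become close then a limit point is periodic: second part, for points given in charts: `p = cht ι x y`, `q = cht ι x y'` with `‖x‖ ≤ 3`, `‖y - y'‖ ≤ 2^(-J)` (bounded by `CHB` (1): pass to the limit in `(ι, n, x, y)`). -/
def FIN_stmt : Prop :=
  ∀ (d : ℕ) (f : Endo 2 d) (Us : ℕ → Set (PP 2)) (K : Set (PP 2)), 2 ≤ d → Core f Us K →
    ((∃ T J2 : ℕ, ∀ J ≥ J2, ∃ p ∈ Us J, ∃ n, 0 < n ∧ n ≤ T ∧ f.map^[n] p = p) → ∃ p ∈ K, ∃ n, 0 < n ∧ f.map^[n] p = p) ∧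
    ((∃ T : ℕ, ∀ J1 : ℕ, ∃ J ≥ J1, ∃ (ι : Fin 2) (x y y' a : ℂ) (n : ℕ), 0 < n ∧ n ≤ T ∧ ‖x‖ ≤ 3 ∧ cht ι x y ∈ cone (Us J) ∧ cht ι x y' ∈ cone (Us J) ∧ a ≠ 0 ∧
      It f n (cht ι x y) = a • cht ι x y' ∧ ‖y - y'‖ ≤ (1 / 2 : ℝ) ^ J1) → ∃ p ∈ K, ∃ n, 0 < n ∧ f.map^[n] p = p)

/-- Row ATO (short to medium; from AT4 FIN): Case A. For `J1` apply the hypothesis with `r = 2^(-J1-2)` and `J ≥ max J1 L0 1`, then `AT4` with `U = Us 0`, `V = Us J` (`T` depends only on `Us 0, Kb, κ, α`). `X` maps `closedBall 0 (1/8)` to itself and is a contraction there (Cauchy estimate: `|X'| ≤ (1/8)/(3/8) = 1/3`): fixed point `ζ = X ζ`. So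
`It f n (gp ι c κ γ (ζ,0)) = a • gp ι c κ γ' (ζ,0)`, `‖γ ζ - γ' ζ‖ ≤ 2r ≤ 2^(-J1)`: second part of `FIN`. -/
def ATO_stmt : Prop :=
  ∀ (d : ℕ) (f : Endo 2 d) (Us : ℕ → Set (PP 2)) (K : Set (PP 2)), 2 ≤ d → Core f Us K → ∀ Kb κ α : ℝ, 0 < Kb → 0 < κ → κ ≤ 1 / 10 → 0 < α →
    (∀ (r : ℝ) (J1 : ℕ), 0 < r → ∃ J ≥ J1, ∃ (L N : ℕ) (Z : ℂ → E3), J ≤ L ∧ L ≤ N ∧ Dsc (Us J) Z ∧ (J : ℝ) ≤ mass f N Z ∧
      (∀ z ∈ ball (0 : ℂ) 1, |un f N (Z z)| ≤ Kb * mass f N Z) ∧ ¬ Non f N L Z κ r α) → ∃ p ∈ K, ∃ n, 0 < n ∧ f.map^[n] p = p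

/-! ### Case B: nodes, edges, words -/

theorem cht_ne (ι : Fin 2) (x y : ℂ) : cht ι x y ≠ 0 := by
  intro h
  unfold cht at h
  split_ifs at h
  · have := congrFun h 0
    simp at this
  · have := congrFun h 1
    simp at this

/-- the node: the part of the tube of `γ` over the disc `(ι, c', κ')`, of height `s` (`γ` is a graph over `(ι, c, κ)`) -/
noncomputable def nod (ι : Fin 2) (c c' : ℂ) (κ κ' s : ℝ) (γ : ℂ → ℂ) (p : ℂ × ℂ) : PP 2 :=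
  toPP ⟨cht ι (c' + κ' * p.1) (γ ((c' - c + κ' * p.1) / κ) + s * p.2), cht_ne _ _ _⟩

/-- Row HFP (short to medium): holomorphic fixed points. `X_0 = a`, `X_(n+1)(p) = G (p, X_n p)`: holomorphic on the polydisc, `‖X_(n+1) - X_n‖ ≤ 2^(-n) ρ`, so they converge uniformly; the limit is holomorphic (locally uniform limits; in two variables use `Pool/Agent/helper49/P2/OSG.lean` (Osgood) or continuity and separate holomorphy; or the implicit function theorem at every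
point, `∂_u G` has modulus `≤ 1/2`). -/
def HFP_stmt : Prop :=
  ∀ (a : ℂ) (ρ ρ' : ℝ) (G : (ℂ × ℂ) × ℂ → ℂ), 0 < ρ → ρ < ρ' → DifferentiableOn ℂ G (ball 0 1 ×ˢ ball a ρ') → (∀ p ∈ ball (0 : ℂ × ℂ) 1, ∀ u ∈ closedBall a ρ, G (p, u) ∈ closedBall a ρ) →
    (∀ p ∈ ball (0 : ℂ × ℂ) 1, ∀ u ∈ closedBall a ρ, ∀ u' ∈ closedBall a ρ, ‖G (p, u) - G (p, u')‖ ≤ (1 / 2) * ‖u - u'‖) →
    ∃ X : ℂ × ℂ → ℂ, DifferentiableOn ℂ X (ball 0 1) ∧ ∀ p ∈ ball (0 : ℂ × ℂ) 1, X p ∈ closedBall a ρ ∧ G (p, X p) = X p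

/-- Row EDG (medium; from LAT UNI HFP): a band is an edge. The disc of the base of the target node is `(ι2, c2', κ')`; by `‖c2' - (c2 + κ ξ2)‖ ≤ κ'/64` and `It f n (gp ι c κ γ (ξ,0)) ∝ It f (k+n) (Z z) ∝ gp ι2 c2 κ γ2 (ξ2,0)` the hypothesis in `BP` holds: `X, V`, `X (ζ0,0) = ξ`, `c2' + κ' ζ0 = c2 + κ ξ2` (`LAT` last part). (1) `V(ζ,0) = γ2((c2'-c2+κ'ζ)/κ)`:
the functions `ζ ↦ g (X (ζ,0))`, `V(ζ,0)` are an island of `Z` at time `k+n` over `(ι2,c2',κ')`, and so are `ζ ↦ g2((c2'-c2+κ'ζ)/κ)`, `γ2((c2'-c2+κ'ζ)/κ)` (`|(c2'-c2+κ'ζ)/κ| ≤ κ'/(64κ) + 1/32 + κ'/κ < 1/2`); at `ζ0` both are at the point `z`: `UNI`. (2) Let `D = closedBall ξ (κ'/(32κ)) ⊆ ball 0 (1/4)` and, for `(ζ,w)` in the polydisc,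
`G((ζ,w),u) = X (ζ, (γb u - γ u + s' w)/s)`; the second argument has modulus `≤ (s'/16 + s')/s ≤ 2s'/s ≤ κ'/(128κ) ≤ 1/2`. Schwarz lemma (`X(ζ,·) - X(ζ,0)` has modulus `< 1` on the unit disc): `|X(ζ,v) - X(ζ,0)| ≤ |v| ≤ κ'/(128κ)`, and `|X(ζ,0) - ξ| ≤ κ'/(64κ)`: `G` maps `D` to `D`; its `u`-derivative is at most
`1 · (s'/16)/(1/4)/s ≤ 1/2` (Cauchy). `HFP` (with `a = ξ`): `u(ζ,w)`. (3) The edge: `X^E = (κ u + c - c')/κ' = (κ(u-ξ) + (c+κξ) - c')/κ'`, `|X^E| ≤ 1/32 + 1/64`; `V^E = (V(ζ, v) - γ2b((c2'-c2+κ'ζ)/κ))/s'` with `v = (γb u - γ u + s' w)/s`: `|V(ζ,v) - V(ζ,0)| ≤ (s/16)|v|` (Schwarz) `≤ s'/8`, and `|γ2 - γ2b| ≤ s'/16`: `|V^E| ≤ 3/16`.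
`γb u + s' w = γ u + s v`, so the node point is `gp ι c κ γ (u, s v)` and its image is `cht ι2 (c2'+κ'ζ) (V(ζ,v))` up to a factor. (`f.map^[n] (toPP ..) = toPP (It f n ..)`: `map_iter`.) -/
def EDG_stmt : Prop :=
  ∀ (d : ℕ) (f : Endo 2 d) (V : Set (PP 2)), IsTrapping f V → ∀ κ κ' s s' : ℝ, 0 < κ → κ ≤ 1 / 10 → 0 < κ' → κ' ≤ κ / 4 → 0 < s → 0 < s' → s' ≤ s * κ' / (256 * κ) →
    ∀ (Z : ℂ → E3) (k n : ℕ) (z : ℂ), Dsc V Z → z ∈ ball (0 : ℂ) 1 →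
    ∀ (ι : Fin 2) (c c' : ℂ) (g γ γb : ℂ → ℂ) (ξ : ℂ) (ι2 : Fin 2) (c2 c2' : ℂ) (g2 γ2 γ2b : ℂ → ℂ) (ξ2 : ℂ),
      ‖c‖ ≤ 2 → ‖c2'‖ ≤ 2 → Isl f Z k ι c κ g γ → ‖ξ‖ ≤ 1 / 32 → g ξ = z → ‖c' - (c + κ * ξ)‖ ≤ κ' / 64 → DifferentiableOn ℂ γb (ball 0 1) → Clo γb (s' / 16) γ →
      Isl f Z (k + n) ι2 c2 κ g2 γ2 → ‖ξ2‖ ≤ 1 / 32 → g2 ξ2 = z → ‖c2' - (c2 + κ * ξ2)‖ ≤ κ' / 64 → DifferentiableOn ℂ γ2b (ball 0 1) → Clo γ2b (s' / 16) γ2 →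
      BP f n ι c κ γ s κ' ξ → Edge f.map (nod ι c c' κ κ' s' γb) (nod ι2 c2 c2' κ κ' s' γ2b) n

/-- Row NET (short): bounded holomorphic functions are totally bounded on the half disc. Taylor polynomial of degree `q` (`∑_(n>q) |a_n| 2^(-n) ≤ R 2^(-q)` since `|a_n| ≤ R`), coefficients in a finite net of `closedBall 0 R`. -/
def NET_stmt : Prop :=
  ∀ R r : ℝ, 0 < r → ∃ (q : ℕ) (γb : Fin q → ℂ → ℂ), (∀ b, Differentiable ℂ (γb b)) ∧ ∀ γ : ℂ → ℂ, DifferentiableOn ℂ γ (ball 0 1) → (∀ ξ ∈ ball (0 : ℂ) 1, ‖γ ξ‖ ≤ R) → ∃ b, Clo (γb b) r γ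

/-- the point `z` is at time `k` on an island over the disc with the lattice centre near -/
def Gk {d : ℕ} (f : Endo 2 d) (Z : ℂ → E3) (κ : ℝ) (z : ℂ) (k : ℕ) : Prop :=
  ∃ (g γ : ℂ → ℂ) (ξ : ℂ), NI f Z k (chi (It f k (Z z))) (rd κ (chx (It f k (Z z)))) κ g γ ∧ ‖ξ‖ ≤ 1 / 32 ∧ g ξ = z

/-- Row NDE (medium; from CHB LAT UNI EDG NET): nodes. `s' := s κ'/(256 κ)`. Index type `I := Fin 2 × ctr κ × ctr κ' × Fin q` with the net `γb` of `NET` for the `R` of `CHB` and `r = s'/16` (add an element if it is empty), `P (ι,c,c',b) := nod ι c c' κ κ' s' (γb b)`: continuous everywhere. For `z` and `k` with `Gk` let `Y = It f k (Z z)`, `ι = chi Y`, `c = rd κ (chx Y)`,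
`c' = rd κ' (chx Y)` (`LAT`: the point `Z z` is in the cone, so `Y 0 ≠ 0` or `Y 1 ≠ 0`; `c + κ ξ = chx Y` by `LAT` last part), `b` with `Clo (γb b) (s'/16) γ`. First conclusion: `g(x) = (γ(φ x) - γb(φ x))/s'`, `φ x = (c'-c+κ'x)/κ ∈ ball 0 (1/2)`: `P (ν k) (x, g x)` is the point `gp ι c κ γ (φ x, 0)` (`UNI`: in the cone of `V`). Edges: `EDG` (`n > 0` is not needed). The
island `(g,γ)` with its point `ξ` is unique (`UNI`), so the hypothesis on `BP` applies to the chosen one. -/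
def NDE_stmt : Prop :=
  ∀ (d : ℕ) (f : Endo 2 d) (U : Set (PP 2)), Good0 f U → ∀ κ κ' s : ℝ, 0 < κ → κ ≤ 1 / 10 → 0 < κ' → κ' ≤ κ / 4 → 0 < s →
    ∃ (I : Type) (_ : Fintype I) (P : I → ℂ × ℂ → PP 2), (∀ b, Continuous (P b)) ∧
      ∀ (V : Set (PP 2)) (Z : ℂ → E3) (z : ℂ), IsTrapping f V → V ⊆ U → Dsc V Z → z ∈ ball (0 : ℂ) 1 → ∃ ν : ℕ → I, ∀ k, Gk f Z κ z k →
        (∃ g : ℂ → ℂ, DifferentiableOn ℂ g (ball 0 1) ∧ (∀ x ∈ ball (0 : ℂ) 1, ‖g x‖ ≤ 1 / 4) ∧ ∀ x ∈ closedBall (0 : ℂ) (1 / 4), P (ν k) (x, g x) ∈ V) ∧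
        ∀ n, 0 < n → Gk f Z κ z (k + n) →
          (∀ (g γ : ℂ → ℂ) (ξ : ℂ), NI f Z k (chi (It f k (Z z))) (rd κ (chx (It f k (Z z)))) κ g γ → ‖ξ‖ ≤ 1 / 32 → g ξ = z →
            BP f n (chi (It f k (Z z))) (rd κ (chx (It f k (Z z)))) κ γ s κ' ξ) → Edge f.map (P (ν k)) (P (ν (k + n))) n

open Classical in
/-- Row WRD (medium): averaging over the point and the window. `ε = 1/100`. `m0` with `(C+1) 2^(-m0) ≤ 1/100`; `L0 ≥ 4 (2^M + C0)`. Choose `t0` uniformly in the `T ≥ L/2` integers of `[C0, L - 2^M]` and `z` with the law `μ` (`B1, B2` replaced by measurable supersets of the same measure, `toMeasurable`). For fixed `m, i` and a pair `(p,q)` the probability of `z ∈ B1 (t0+p)`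
is at most `ε` (`t0 + p ≥ C0`, `< L`), the same for `q`; if `n = q - p` is not exceptional then the probability of `z ∈ B2 n (t0+p)` is at most `T⁻¹ ε L ≤ 2ε`; the number of pairs with `q - p` exceptional is at most `2^m` times the number of the exceptional `n < 2^(m+1)`, `≤ 2^m (ε 2^(m+1) + C)`. So the expectation of the `(m,i)` term is at most
`ε + ε + 2ε + 2ε + C 2^(-m) ≤ 7/100 < 1/4`. There are a `t0` and a point of `E` where the sum is at most the expectation (`exists_notMem_null_laverage_le` or the first moment method for the finite measure `μ` restricted to `E`). -/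
def WRD_stmt : Prop :=
  ∀ C : ℝ, 0 ≤ C → ∃ m0 : ℕ, ∀ M > m0, ∀ C0 : ℕ, ∃ L0 : ℕ, ∀ L ≥ L0, ∀ (μ : Measure ℂ) [IsProbabilityMeasure μ] (E : Set ℂ) (B1 : ℕ → Set ℂ) (B2 : ℕ → ℕ → Set ℂ), MeasurableSet E → μ Eᶜ = 0 →
    (∀ k, C0 ≤ k → k < L → μ (B1 k) ≤ ENNReal.ofReal (1 / 100)) →
    (∀ m ≤ 2 ^ M, ((Nat.card {n : ℕ // 1 ≤ n ∧ n < m ∧ ¬ ∑ k ∈ Finset.Ico 1 L, μ (B2 n k) ≤ ENNReal.ofReal (1 / 100 * L)} : ℕ) : ℝ) ≤ 1 / 100 * m + C) →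
    ∃ z ∈ E, ∃ t0 : ℕ, C0 ≤ t0 ∧ t0 + 2 ^ M ≤ L ∧
      ∑ m ∈ Finset.Ico m0 M, (∑ i ∈ Finset.range (2 ^ (M - m - 1)),
        ((((Finset.Ico (2 * i * 2 ^ m) ((2 * i + 1) * 2 ^ m) ×ˢ Finset.Ico ((2 * i + 1) * 2 ^ m) ((2 * i + 2) * 2 ^ m)).filter
          (fun p => z ∈ B1 (t0 + p.1) ∨ z ∈ B1 (t0 + p.2) ∨ z ∈ B2 (p.2 - p.1) (t0 + p.1))).card : ℝ) / 4 ^ m)) / 2 ^ (M - m - 1) < ((M : ℝ) - m0) / 4

/-- conclusion of `NOD` for one scale -/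
def NodAt {d : ℕ} (f : Endo 2 d) (U : Set (PP 2)) (Kb ε κ : ℝ) : Prop :=
  ∃ (δ : ℝ) (C : ℕ), 0 < δ ∧ ∀ (k N : ℕ) (Z : ℂ → E3), C ≤ k → k + C ≤ N → Dsc U Z → (C : ℝ) ≤ mass f N Z →
    (∀ z ∈ ball (0 : ℂ) 1, |un f N (Z z)| ≤ Kb * mass f N Z) →
    ∃ Bd : Set ℂ, MeasurableSet Bd ∧ (∀ z ∈ ball (0 : ℂ) 1, eta z ≠ 0 → z ∉ Bd → GoodPt f Z N k κ δ z) ∧ ∫ z in Bd, eta z ^ 2 * tau f N Z z ≤ ε * mass f N Z

/-- Row PRS (medium; from LAT UNI MZP NDE WRD XCL): Case B, conclusion. `δ, C₁` of `NodAt`; `s, κ', C` of `PairAt`; `m0` of `WRD` for `max C 0`; `I, P` of `NDE` (`U = Us 0`); `M := m0 + 64 card I + 1`, `T := 2^M`; `L0` of `WRD` for `C0 := max C₁ 1`. `J2` larger than `1`, `L0`, `C₁`, and the `J2` of `PairAt` for `m1 = 2^M`. For `J ≥ J2`: `μ = mz f (N J) (Z J)` (`MZP`), `E = {eta ≠ 0}`,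
`B1 k := Bd_k ∩ E` of `NodAt` (the integral inequality gives `μ (Bd_k) ≤ 1/100`; `k + C₁ ≤ N J` for `k < L J`), `B2 n k := BPr f (Z J) n k κ s κ'`. `WRD` gives `z, t0`. `NDE` for `V = Us J` and `z`: `ν₀`; the word is `ν p := some (ν₀ (t0+p))` if `Gk f (Z J) κ z (t0+p)`, otherwise `none`. If `z ∉ B1 k` then `GoodPt`, and with the centre `rd κ (chx Y)` (`LAT`: `‖x - c‖ ≤ κ/64`, `‖c‖ ≤ 2`) it
gives an island, normalised by `UNI`: `Gk`. If `z ∉ BPr n k` then all islands `(g,γ)` through `z` over the lattice centre satisfy `BP` (`rd κ (chx Y) ∈ ctr κ`). So a pair `(p,q)` which is not counted in `WRD` is an edge with time `q - p ∈ (0, T]`: the sum in `XCL` is at most that of `WRD`. `XCL` (`Ω = PP 2`, `U = Us J`, `f.map` continuous, `IsTrapping`) gives a periodic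
point in `Us J` of period `≤ 2T`. -/
def PRS_stmt : Prop :=
  ∀ (d : ℕ) (f : Endo 2 d) (Us : ℕ → Set (PP 2)) (K : Set (PP 2)), 2 ≤ d → Core f Us K → ∀ (Λ1 Kb κ : ℝ) (L N : ℕ → ℕ) (Z : ℕ → ℂ → E3), 0 < Λ1 → 0 < Kb → 0 < κ → κ ≤ 1 / 10 →
    NodAt f (Us 0) Kb (1 / 100) κ → NMD f Us Λ1 Kb κ L N Z → PairAt f κ (1 / 100) L N Z →
    ∃ T J2 : ℕ, ∀ J ≥ J2, ∃ p ∈ Us J, ∃ n, 0 < n ∧ n ≤ T ∧ f.map^[n] p = p

/-- Row COR (short; from NOD DIAG PRB ATO PRS FIN): the theorem for `Core`. `DIAG`: `Λ1, Kb`. `NOD` for `Us 0`, `Kb`, `1/100`: `κ`, `NodAt`. `DIAG`: the sequence. `PRB` for `ε = 1/100`: `α`. If there are `r > 0`, `J1` with `Non` for all `J ≥ J1`: `PairAt`, `PRS`, `FIN`. Otherwise the hypothesis of `ATO` holds (`NMD.size`). -/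
def COR_stmt : Prop :=
  ∀ (d : ℕ) (f : Endo 2 d) (Us : ℕ → Set (PP 2)) (K : Set (PP 2)), 2 ≤ d → Core f Us K → ∃ p ∈ K, ∃ n, 0 < n ∧ f.map^[n] p = p

/-! ### Reduction to `Core` -/

/-- Row RD1 (medium): minimal quasi-attractors. Zorn: the nonempty intersections of families of attracting sets contained in the given one, ordered by inclusion (a chain of them has nonempty intersection by compactness): a minimal one `K`. If `V` is trapping and meets `K` then `attr f V ∩ K ≠ ∅` (the orbit closure: `x ∈ V ∩ K`, `f^n x ∈ f^n(V) ∩ K`, compactness: a limit point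
is in all `f^n(closure V) ∩ K`), so by minimality `K ⊆ attr f V ⊆ V`. Trapping regions containing `K` form a basis of neighbourhoods of `K` (finite intersections of the `f^n (closure U_i)`: for `W` open containing `K` there is a finite intersection of attracting sets in `W`, and `f^n(U_1) ∩ .. ∩ f^n(U_q)` (open by `helper76/P2/OPN.lean`, or use `periodic_nhds`/`trapping_inter` in
`helper37/QA`) is trapping and in `W` for large `n`). `PP 2` has a countable basis (compact metrizable; quotient of a second countable space by an open map), so choose inductively `Us n` trapping, `K ⊆ Us (n+1)`, `closure (Us (n+1)) ⊆ Us n ∩ W_n` where `W_n` is a decreasing countable basis of neighbourhoods of the compact set `K`. (See also `Pool/Agent/helper15/QB` for minimal quasi-attractors.) -/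
def RD1_stmt : Prop :=
  ∀ (d : ℕ) (f : Endo 2 d), 2 ≤ d → ∀ (ι : Type) (U : ι → Set (PP 2)), (∀ i, IsTrapping f (U i)) → (⋂ i, attr f (U i)).Nonempty →
    ∃ (Us : ℕ → Set (PP 2)) (K : Set (PP 2)), K.Nonempty ∧ K ⊆ ⋂ i, attr f (U i) ∧ IsClosed K ∧ f.map '' K ⊆ K ∧ (∀ n, IsTrapping f (Us n)) ∧ (∀ n, closure (Us (n + 1)) ⊆ Us n) ∧
      K = ⋂ n, Us n ∧ ∀ V : Set (PP 2), IsTrapping f V → (V ∩ K).Nonempty → K ⊆ V

/-- Row RD2 (short to medium): coordinates. Choose an invertible matrix `A` with `A (rep of p) = (0,0,1)`; `F' = A F A⁻¹` (substitute the linear forms of `A⁻¹` in the polynomials, then combine with `A`): homogeneous of degree `d`, only zero `0`. `φ [Z] = [A Z]`. -/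
def RD2_stmt : Prop :=
  ∀ (d : ℕ) (f : Endo 2 d) (p : PP 2), ∃ (f' : Endo 2 d) (φ : PP 2 ≃ₜ PP 2), (∀ x, f'.map (φ x) = φ (f.map x)) ∧
    ∀ Z : E3, ∀ h : Z ≠ 0, Z 0 = 0 → Z 1 = 0 → φ p = toPP ⟨Z, h⟩

/-- Row RD3 (medium; from UN1 UNH MSS; import also `Pool.Agent.helper39.P2.SWE`). `u Z := lim un f n Z` on the cone of `U` (Cauchy by `UN1`; `0` elsewhere): `|dⁿ u - dⁿ un f n| ≤ C`, `|dⁿ un f n - (1/2) log nq (It f n Z)| ≤ C` and `nq` is comparable with `‖·‖²`: `Green`. Not charged: for every disc `Z` in `U` `mass f N Z → 0` (the limit exists by `UN1` and `MSS`: `|mass_N - mass_n| ≤ C dⁿ⁻¹..`, it is `≥ 0`, and not `> 0`).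
So for smooth `χ` supported in `{|z|² < 1/2}` (where `eta = 1`): `|∫ χ tau f N Z| ≤ sup|χ| mass f N Z → 0`, i.e. `∫ lap χ · u(Z z) = 0` (`MSS`, uniform convergence; `lap` is a quarter of the Laplacian). Let `a, b` be as in `Harm`; for every `t₀` in the unit disc apply this to the disc `z ↦ a + (t₀ + ρ z) • b` with small `ρ`, rescale, and `SWE_core` of `Pool/Agent/helper39/P2/SWE.lean` (weak harmonicity on a smaller disc, rescaled to the unit disc): `t ↦ u(a + t b)` is harmonic near `t₀`; it is continuous (`UNH` or uniform limit). Then `InnerProductSpace.HarmonicOnNhd.exists_analyticOnNhd_ball_re_eq` on `ball 0 1`. -/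
def RD3_stmt : Prop :=
  ∀ (d : ℕ) (f : Endo 2 d) (U : Set (PP 2)), 2 ≤ d → Good0 f U → ¬ Charged f U → ∃ (u : (Fin (2 + 1) → ℂ) → ℝ) (C : ℝ), Green f U u C ∧ Harm U u

/-- Row QAP (short to medium; from COR S0 RD1 RD2 RD3): every quasi-attractor contains a periodic point. `RD1`: `Us, K`. If `K = univ` then `univ` is trapping and `exists_periodic` (helper37/QA/Main) gives a periodic point. Otherwise let `p ∉ K`; then `p ∉ closure (Us m)` for some `m`; shift the sequence by `m`; `RD2` for `p`: `f', φ`. The sets `φ '' Us n`, `φ '' K` have the same properties for `f'`, and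
`Good0 f' (φ '' Us 0)`: the point `[0:0:1] = φ p` is not in the closure. If all `φ '' Us n` are charged this is `Core` and `COR` applies. If `φ '' Us n` is not charged (`Good0` holds for it as well): `RD3` and `S0` with `U = φ '' Us n`, `K = φ '' K` (compact). Transport the periodic point back. -/
def QAP_stmt : Prop :=
  ∀ (d : ℕ) (f : Endo 2 d), 2 ≤ d → ∀ (ι : Type) (U : ι → Set (PP 2)), (∀ i, IsTrapping f (U i)) → (⋂ i, attr f (U i)).Nonempty →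
    ∃ x ∈ ⋂ i, attr f (U i), ∃ n : ℕ, 0 < n ∧ f.map^[n] x = x

end Pool.Agent.P2
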